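import Pool.Agent.Helper49.EJ.Num

/-!
Assembly: from the two one-sided bounds to the statement about balls.
-/

set_option autoImplicit false

open MeasureTheory Metric

namespace Pool.Agent.Helper49.EJ

open Pool.Agent.Helper47.KP

variable {d n : ℕ}

/-- the points with indices in `I` have pairwise angles at least 60 degrees -/
def Kis (x : Fin n → Sph d) (I : Finset (Fin n)) : Prop :=
  ∀ i ∈ I, ∀ j ∈ I, i ≠ j → inner ℝ (x i : EE d) (x j) ≤ 1 / 2

/-- the unit balls with centres `2 x i` do not overlap -/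
def NoOverlap (x : Fin n → Sph d) (I : Finset (Fin n)) : Prop :=
  ∀ i ∈ I, ∀ j ∈ I, i ≠ j →
    Disjoint (ball ((2 : ℝ) • (x i : EE d)) 1) (ball ((2 : ℝ) • (x j : EE d)) 1)

lemma disjoint_iff (x y : Sph d) :
    Disjoint (ball ((2 : ℝ) • (x : EE d)) 1) (ball ((2 : ℝ) • (y : EE d)) 1) ↔
      inner ℝ (x : EE d) y ≤ 1 / 2 := by
  rw [disjoint_ball_ball_iff one_pos one_pos, dist_eq_norm, ← smul_sub, norm_smul,
    Real.norm_eq_abs, abs_of_pos (by norm_num : (0 : ℝ) < 2)]
  have hx := norm_S x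
  have hy := norm_S y
  have h : ‖(x : EE d) - y‖ ^ 2 = 2 - 2 * inner ℝ (x : EE d) y := by
    rw [norm_sub_sq_real, hx, hy]; ring
  have hn := norm_nonneg ((x : EE d) - y)
  constructor
  · intro h1
    have h2 : 1 ≤ ‖(x : EE d) - y‖ := by linarith
    nlinarith
  · intro h1
    have h2 : 1 ≤ ‖(x : EE d) - y‖ ^ 2 := by linarith
    have h3 : 1 ≤ ‖(x : EE d) - y‖ := by nlinarith
    linarith

lemma noOverlap_iff (x : Fin n → Sph d) (I : Finset (Fin n)) : NoOverlap x I ↔ Kis x I := by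
  unfold NoOverlap Kis
  simp only [disjoint_iff]

open Classical in
/-- the largest number of balls without overlap -/
noncomputable def maxBalls (x : Fin n → Sph d) : ℕ :=
  (Finset.univ.filter fun I : Finset (Fin n) => NoOverlap x I).sup Finset.card

lemma le_maxBalls {x : Fin n → Sph d} {I : Finset (Fin n)} (h : Kis x I) :
    I.card ≤ maxBalls x := by
  classical
  unfold maxBalls
  apply Finset.le_sup (f := Finset.card)
  rw [Finset.mem_filter]
  exact ⟨Finset.mem_univ _, (noOverlap_iff x I).2 h⟩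

lemma exists_maxBalls (x : Fin n → Sph d) : ∃ I, Kis x I ∧ I.card = maxBalls x := by
  classical
  unfold maxBalls
  have hne : (Finset.univ.filter fun I : Finset (Fin n) => NoOverlap x I).Nonempty :=
    ⟨∅, by rw [Finset.mem_filter]; exact ⟨Finset.mem_univ _, fun i hi => absurd hi (by simp)⟩⟩
  obtain ⟨I, hI, hI2⟩ := Finset.exists_mem_eq_sup _ hne Finset.card
  rw [Finset.mem_filter] at hI
  exact ⟨I, (noOverlap_iff x I).1 hI.2, hI2.symm⟩

/-- the order `d^(3/2) (2/√3)^d` -/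
noncomputable def ord (d : ℕ) : ℝ := (d : ℝ) ^ (3 / 2 : ℝ) * (2 / Real.sqrt 3) ^ d

lemma assemble [NeZero d] {c C a b : ℝ}
    (hu : (Measure.pi fun _ : Fin n => sig d).real
      {x | ∃ I, Kis x I ∧ C * ord d ≤ (I.card : ℝ)} ≤ a)
    (hl : (Measure.pi fun _ : Fin n => sig d).real
      {x | ¬ ∃ I, Kis x I ∧ c * ord d ≤ (I.card : ℝ)} ≤ b) :
    (Measure.pi fun _ : Fin n => sig d).real
      {x | ¬ (c * ord d ≤ (maxBalls x : ℝ) ∧ (maxBalls x : ℝ) ≤ C * ord d)} ≤ a + b := by
  set μ := Measure.pi fun _ : Fin n => sig d with hμ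
  set E : Set (Fin n → Sph d) :=
    {x | ¬ (c * ord d ≤ (maxBalls x : ℝ) ∧ (maxBalls x : ℝ) ≤ C * ord d)} with hE
  set A : Set (Fin n → Sph d) := {x | ∃ I, Kis x I ∧ C * ord d ≤ (I.card : ℝ)} with hA
  set B : Set (Fin n → Sph d) := {x | ¬ ∃ I, Kis x I ∧ c * ord d ≤ (I.card : ℝ)} with hB
  have hcov : E ⊆ A ∪ B := by
    intro x hxE
    by_contra hx
    apply hxE
    have h1 : x ∉ A := fun h => hx (Or.inl h)
    have h2 : x ∉ B := fun h => hx (Or.inr h)
    simp only [hB, Set.mem_ofPred_eq, not_not] at h2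
    obtain ⟨I, hI, hI2⟩ := h2
    refine ⟨?_, ?_⟩
    · have := le_maxBalls hI
      have h3 : (I.card : ℝ) ≤ maxBalls x := by exact_mod_cast this
      linarith
    · obtain ⟨J, hJ, hJ2⟩ := exists_maxBalls x
      by_contra hlt
      push Not at hlt
      apply h1
      refine ⟨J, hJ, ?_⟩
      rw [hJ2]
      exact hlt.le
  calc μ.real E ≤ μ.real (A ∪ B) := measureReal_mono hcov (measure_ne_top _ _)
    _ ≤ μ.real A + μ.real B := measureReal_union_le _ _
    _ ≤ a + b := add_le_add hu hl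

end Pool.Agent.Helper49.EJ
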