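import Pool.Agent.Helper49.EJ.Cap

/-!
The measure of the cap and the growth of the binomial coefficient.
-/

set_option autoImplicit false

open MeasureTheory Set Filter Topology

namespace Pool.Agent.Helper49.EJ

open Pool.Agent.Helper47.KP

variable {d : ℕ}

lemma wt_sq (D : ℕ) (t : ℝ) : wt D t = Real.sqrt (1 - t ^ 2) ^ D := rfl

lemma pc_eq : pc d = cst d * ∫ t in (1 / 2 : ℝ)..1, wt (d - 3) t := by
  unfold pc
  rw [integral_den]
  congr 1
  have hi : ∀ a b : ℝ, IntervalIntegrable (fun t => capf t * wt (d - 3) t) volume a b := by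
    intro a b
    apply IntervalIntegrable.mono_fun ((continuous_wt (d - 3)).intervalIntegrable a b)
    · exact (measurable_capf.mul (continuous_wt _).measurable).aestronglyMeasurable
    · refine Filter.Eventually.of_forall fun t => ?_
      show ‖capf t * wt (d - 3) t‖ ≤ ‖wt (d - 3) t‖
      rw [norm_mul, Real.norm_eq_abs, abs_of_nonneg (capf_nonneg t)]
      exact mul_le_of_le_one_left (norm_nonneg _) (capf_le t)
  rw [← intervalIntegral.integral_add_adjacent_intervals (hi (-1) (1 / 2)) (hi (1 / 2) 1)]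
  have h1 : ∫ t in (-1 : ℝ)..(1 / 2), capf t * wt (d - 3) t = 0 := by
    have : ∫ t in (-1 : ℝ)..(1 / 2), capf t * wt (d - 3) t = ∫ t in (-1 : ℝ)..(1 / 2), (0 : ℝ) := by
      apply intervalIntegral.integral_congr
      intro t ht
      rw [uIcc_of_le (by norm_num)] at ht
      simp only [capf]
      rw [if_neg (by linarith [ht.2])]
      ring
    rw [this, intervalIntegral.integral_zero]
  have h2 : ∫ t in (1 / 2 : ℝ)..1, capf t * wt (d - 3) t = ∫ t in (1 / 2 : ℝ)..1, wt (d - 3) t := by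
    apply intervalIntegral.integral_congr_ae
    refine Filter.Eventually.of_forall fun t ht => ?_
    rw [uIoc_of_le (by norm_num)] at ht
    simp only [capf]
    rw [if_pos ht.1]
    ring
  rw [h1, h2, zero_add]

lemma wt_le_exp (D : ℕ) (t : ℝ) : wt D t ≤ Real.exp (-(D / 2) * t ^ 2) := by
  have h1 : Real.sqrt (1 - t ^ 2) ≤ Real.exp (-(1 / 2) * t ^ 2) := by
    rw [show Real.exp (-(1 / 2) * t ^ 2) = Real.sqrt (Real.exp (-t ^ 2)) by
      rw [← Real.exp_half]; congr 1; ring]
    apply Real.sqrt_le_sqrt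
    have := Real.add_one_le_exp (-t ^ 2)
    linarith
  calc wt D t = Real.sqrt (1 - t ^ 2) ^ D := rfl
    _ ≤ Real.exp (-(1 / 2) * t ^ 2) ^ D := pow_le_pow_left₀ (Real.sqrt_nonneg _) h1 D
    _ = Real.exp (-(D / 2) * t ^ 2) := by rw [← Real.exp_nat_mul]; congr 1; ring

lemma int_wt_le {D : ℕ} (hD : 1 ≤ D) :
    ∫ t in (-1 : ℝ)..1, wt D t ≤ Real.sqrt (2 * Real.pi / D) := by
  have hD' : (0 : ℝ) < D := by exact_mod_cast hD
  have hint : Integrable (fun t : ℝ => Real.exp (-(D / 2 : ℝ) * t ^ 2)) :=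
    integrable_exp_neg_mul_sq (by positivity)
  calc ∫ t in (-1 : ℝ)..1, wt D t ≤ ∫ t in (-1 : ℝ)..1, Real.exp (-(D / 2 : ℝ) * t ^ 2) := by
        apply intervalIntegral.integral_mono_on (by norm_num)
          ((continuous_wt D).intervalIntegrable _ _) hint.intervalIntegrable
        intro t _
        exact wt_le_exp D t
    _ ≤ ∫ t : ℝ, Real.exp (-(D / 2 : ℝ) * t ^ 2) := by
        rw [intervalIntegral.integral_of_le (by norm_num)]
        exact setIntegral_le_integral hint (Filter.Eventually.of_forall fun t => (Real.exp_pos _).le)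
    _ = Real.sqrt (2 * Real.pi / D) := by
        rw [integral_gaussian]
        congr 1
        field_simp

lemma sqrt_34 : Real.sqrt (3 / 4) = Real.sqrt 3 / 2 := by
  rw [Real.sqrt_div (by norm_num), show (4 : ℝ) = 2 ^ 2 by norm_num, Real.sqrt_sq (by norm_num)]

/-- lower bound for the integral over the cap -/
lemma int_cap_ge {D : ℕ} (hD : 1 ≤ D) :
    3 / (32 * D) * (Real.sqrt 3 / 2) ^ D ≤ ∫ t in (1 / 2 : ℝ)..1, wt D t := by
  have hD' : (1 : ℝ) ≤ D := by exact_mod_cast hD
  set h : ℝ := 3 / (16 * D) with hh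
  have hh0 : 0 < h := by positivity
  have hh1 : h ≤ 3 / 16 := by
    rw [hh]; exact div_le_div_of_nonneg_left (by norm_num) (by norm_num) (by linarith)
  have hhD : D * h = 3 / 16 := by rw [hh]; field_simp
  have h1 : ∀ t ∈ Icc (1 / 2 : ℝ) (1 / 2 + h), (Real.sqrt 3 / 2) ^ D / 2 ≤ wt D t := by
    intro t ht
    have e1 : (3 / 4 : ℝ) * (1 - 8 / 3 * h) ^ 2 ≤ 1 - t ^ 2 := by
      have := ht.1; have := ht.2
      nlinarith
    have h8 : 0 ≤ 1 - 8 / 3 * h := by linarith
    have e2 : Real.sqrt 3 / 2 * (1 - 8 / 3 * h) ≤ Real.sqrt (1 - t ^ 2) := by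
      rw [← sqrt_34, ← Real.sqrt_sq h8, ← Real.sqrt_mul (by norm_num)]
      exact Real.sqrt_le_sqrt e1
    have e3 : (1 : ℝ) / 2 ≤ (1 - 8 / 3 * h) ^ D := by
      have := one_add_mul_le_pow (a := -(8 / 3 * h)) (by linarith) D
      have e4 : 1 + (D : ℝ) * -(8 / 3 * h) = 1 / 2 := by
        have : (D : ℝ) * -(8 / 3 * h) = -(8 / 3) * (D * h) := by ring
        rw [this, hhD]; norm_num
      rw [e4] at this
      rw [show 1 - 8 / 3 * h = 1 + -(8 / 3 * h) by ring]
      exact this
    calc (Real.sqrt 3 / 2) ^ D / 2 = (Real.sqrt 3 / 2) ^ D * (1 / 2) := by ring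
      _ ≤ (Real.sqrt 3 / 2) ^ D * (1 - 8 / 3 * h) ^ D :=
          mul_le_mul_of_nonneg_left e3 (by positivity)
      _ = (Real.sqrt 3 / 2 * (1 - 8 / 3 * h)) ^ D := by rw [mul_pow]
      _ ≤ wt D t := pow_le_pow_left₀ (mul_nonneg (by positivity) h8) e2 D
  have hi : ∀ a b : ℝ, IntervalIntegrable (wt D) volume a b :=
    fun a b => (continuous_wt D).intervalIntegrable a b
  rw [← intervalIntegral.integral_add_adjacent_intervals (hi (1 / 2) (1 / 2 + h))
    (hi (1 / 2 + h) 1)]
  have h2 : 0 ≤ ∫ t in (1 / 2 + h)..1, wt D t :=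
    intervalIntegral.integral_nonneg (by linarith) fun t _ => wt_nonneg D t
  have h3 : ∫ _t in (1 / 2 : ℝ)..(1 / 2 + h), (Real.sqrt 3 / 2) ^ D / 2 ≤
      ∫ t in (1 / 2 : ℝ)..(1 / 2 + h), wt D t := by
    apply intervalIntegral.integral_mono_on (by linarith) intervalIntegrable_const (hi _ _)
    exact h1
  rw [intervalIntegral.integral_const, smul_eq_mul] at h3
  have h4 : 3 / (32 * D) * (Real.sqrt 3 / 2) ^ D =
      (1 / 2 + h - 1 / 2) * ((Real.sqrt 3 / 2) ^ D / 2) := by
    rw [hh]; field_simp; ring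
  linarith

lemma s32_pos : 0 < Real.sqrt 3 / 2 := by positivity

lemma s32_le : Real.sqrt 3 / 2 ≤ 1 := by
  have : Real.sqrt 3 ≤ 2 := by
    rw [show (2 : ℝ) = Real.sqrt 4 by rw [show (4 : ℝ) = 2 ^ 2 by norm_num, Real.sqrt_sq (by norm_num)]]
    exact Real.sqrt_le_sqrt (by norm_num)
  linarith

/-- lower bound for the measure of the cap -/
lemma pc_ge (hd : 4 ≤ d) : 1 / 40 * (Real.sqrt 3 / 2) ^ d / Real.sqrt d ≤ pc d := by
  obtain ⟨D, rfl⟩ : ∃ D, d = D + 3 := ⟨d - 3, by omega⟩
  have hD : 1 ≤ D := by omega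
  have hD' : (1 : ℝ) ≤ D := by exact_mod_cast hD
  rw [pc_eq]
  simp only [Nat.add_sub_cancel]
  have h1 := int_cap_ge hD
  have h2 := int_wt_le hD
  have h3 : (Real.sqrt (2 * Real.pi / D))⁻¹ ≤ cst (D + 3) := by
    unfold cst
    simp only [Nat.add_sub_cancel]
    exact inv_anti₀ (integral_wt_pos D) h2
  have h4 : Real.sqrt D / (251 / 100) ≤ (Real.sqrt (2 * Real.pi / D))⁻¹ := by
    rw [Real.sqrt_div (by positivity), inv_div]
    apply div_le_div_of_nonneg_left (Real.sqrt_nonneg _) (by positivity)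
    rw [show (251 / 100 : ℝ) = Real.sqrt ((251 / 100) ^ 2) by rw [Real.sqrt_sq (by norm_num)]]
    apply Real.sqrt_le_sqrt
    have := Real.pi_lt_d2
    nlinarith
  have hs := s32_pos
  calc 1 / 40 * (Real.sqrt 3 / 2) ^ (D + 3) / Real.sqrt ((D + 3 : ℕ) : ℝ)
      ≤ 1 / 40 * (Real.sqrt 3 / 2) ^ D / Real.sqrt D := by
        apply div_le_div₀ (by positivity)
        · apply mul_le_mul_of_nonneg_left _ (by norm_num)
          exact pow_le_pow_of_le_one hs.le s32_le (by omega)
        · positivity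
        · apply Real.sqrt_le_sqrt
          push_cast; linarith
    _ ≤ Real.sqrt D / (251 / 100) * (3 / (32 * D) * (Real.sqrt 3 / 2) ^ D) := by
        have e : Real.sqrt D / (251 / 100) * (3 / (32 * D) * (Real.sqrt 3 / 2) ^ D) =
            (300 / (32 * 251)) * (Real.sqrt 3 / 2) ^ D / Real.sqrt D := by
          have hsD : Real.sqrt D * Real.sqrt D = D := Real.mul_self_sqrt (by positivity)
          have hsD0 : 0 < Real.sqrt D := Real.sqrt_pos.2 (by linarith)
          rw [eq_div_iff hsD0.ne']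
          calc Real.sqrt D / (251 / 100) * (3 / (32 * D) * (Real.sqrt 3 / 2) ^ D) * Real.sqrt D
              = (Real.sqrt D * Real.sqrt D) / (251 / 100) * (3 / (32 * D) * (Real.sqrt 3 / 2) ^ D) := by
                ring
            _ = 300 / (32 * 251) * (Real.sqrt 3 / 2) ^ D := by rw [hsD]; field_simp; ring
        rw [e]
        apply div_le_div_of_nonneg_right _ (Real.sqrt_nonneg _)
        apply mul_le_mul_of_nonneg_right (by norm_num) (by positivity)
    _ ≤ cst (D + 3) * ∫ t in (1 / 2 : ℝ)..1, wt D t :=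
        mul_le_mul (h4.trans h3) h1 (by positivity) (cst_pos _).le

lemma pc_pos (hd : 4 ≤ d) : 0 < pc d := by
  refine lt_of_lt_of_le ?_ (pc_ge hd)
  have h := s32_pos
  have : (0 : ℝ) < d := by exact_mod_cast (by omega : 0 < d)
  positivity

lemma pc_le_one [NeZero d] (hd : 3 ≤ d) : pc d ≤ 1 := by
  obtain ⟨x⟩ := exists_point (d := d)
  unfold pc
  rw [← int_zonal_den hd x measurable_capf]
  calc ∫ z : Sph d, capf (inner ℝ (x : EE d) z) ∂(sig d) ≤ ∫ _z : Sph d, (1 : ℝ) ∂(sig d) := by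
        apply integral_mono
        · exact integrable_zonal measurable_capf (C := 1)
            (fun t _ => by rw [abs_of_nonneg (capf_nonneg t)]; exact capf_le t) x
        · exact integrable_const _
        · intro z; exact capf_le _
    _ = 1 := by simp

end Pool.Agent.Helper49.EJ
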