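import Pool.Agent.Helper49.EJ.Container

/-!
The probability that `k` independent random points have no conflict.
-/

set_option autoImplicit false

open MeasureTheory Set

namespace Pool.Agent.Helper49.EJ

variable {X : Type*} [MeasurableSpace X] {μ : Measure X} {R : X → X → Prop}

/-- extension of a finite sequence of indices -/
def ext {k q : ℕ} [NeZero k] (τ : Fin q → Fin k) : ℕ → Fin k :=
  fun l => if h : l < q then τ ⟨l, h⟩ else 0

lemma ext_of_lt {k q : ℕ} [NeZero k] (τ : Fin q → Fin k) {l : ℕ} (h : l < q) :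
    ext τ l = τ ⟨l, h⟩ := dif_pos h

/-- the event that the fingerprint is `τ` -/
def Ev (μ : Measure X) (R : X → X → Prop) {k q : ℕ} [NeZero k] (τ : Fin q → Fin k) :
    Set (Fin k → X) :=
  {x | ∀ i, (∀ l, τ l ≠ i) → x i ∈ Av μ R q (x ∘ ext τ)}

lemma indep_subset {k : ℕ} [NeZero k] (q : ℕ) :
    {x : Fin k → X | ∀ i j, i ≠ j → ¬ R (x i) (x j)} ⊆ ⋃ τ : Fin q → Fin k, Ev μ R τ := by
  intro x hx
  obtain ⟨τ, hτ⟩ := exists_fingerprint (μ := μ) x hx q
  refine mem_iUnion.2 ⟨fun l => τ l, fun i hi => ?_⟩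
  have h := hτ i fun l hl => hi ⟨l, hl⟩
  rwa [Av_congr (s := x ∘ ext fun l : Fin q => τ l)] at h
  intro l hl
  simp only [Function.comp_apply, ext_of_lt _ hl]

lemma Ev_bound [IsProbabilityMeasure μ] (hR : MeasurableSet {p : X × X | R p.1 p.2})
    {k q : ℕ} [NeZero k] (τ : Fin q → Fin k) {b : ENNReal}
    (hb : ∀ t, μ (Av μ R q t) ≤ b) (hb1 : b ≤ 1) :
    (Measure.pi fun _ : Fin k => μ) (Ev μ R τ) ≤ b ^ (k - q) := by
  classical
  obtain ⟨x0⟩ : Nonempty X := by
    by_contra hne
    rw [not_nonempty_iff] at hne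
    have h1 : μ univ = 0 := by rw [univ_eq_empty_iff.2 hne, measure_empty]
    rw [measure_univ] at h1
    exact one_ne_zero h1
  set P : Fin k → Prop := fun i => ∃ l, τ l = i with hP
  set tt : ({i // P i} → X) → ℕ → X := fun u l => if h : P (ext τ l) then u ⟨ext τ l, h⟩ else x0
    with htt
  have htm : Measurable tt := by
    apply measurable_pi_lambda
    intro l
    by_cases h : P (ext τ l)
    · have : (fun u : {i // P i} → X => tt u l) = fun u => u ⟨ext τ l, h⟩ := by
        funext u; simp only [htt]; rw [dif_pos h]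
      rw [this]
      exact measurable_pi_apply _
    · have : (fun u : {i // P i} → X => tt u l) = fun u => x0 := by
        funext u; simp only [htt]; rw [dif_neg h]
      rw [this]
      exact measurable_const
  set G : Set (({i // P i} → X) × ({i // ¬ P i} → X)) :=
    {w | ∀ i : {i // ¬ P i}, w.2 i ∈ Av μ R q (tt w.1)} with hG
  have hGm : MeasurableSet G := by
    have : G = ⋂ i : {i // ¬ P i}, {w : ({i // P i} → X) × ({i // ¬ P i} → X) |
        w.2 i ∈ Av μ R q (tt w.1)} := by
      ext w; simp [hG]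
    rw [this]
    refine MeasurableSet.iInter fun i => ?_
    have h1 : Measurable (fun w : ({i // P i} → X) × ({i // ¬ P i} → X) => (tt w.1, w.2 i)) :=
      (htm.comp measurable_fst).prodMk ((measurable_pi_apply i).comp measurable_snd)
    exact h1 (measurable_Av hR q)
  have hmp := measurePreserving_piEquivPiSubtypeProd (fun _ : Fin k => μ) P
  have hsub : Ev μ R τ ⊆ (MeasurableEquiv.piEquivPiSubtypeProd (fun _ : Fin k => X) P) ⁻¹' G := by
    intro x hx i
    have h := hx i.1 fun l hl => i.2 ⟨l, hl⟩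
    have e : Av μ R q (x ∘ ext τ) =
        Av μ R q (tt ((MeasurableEquiv.piEquivPiSubtypeProd (fun _ : Fin k => X) P) x).1) := by
      apply Av_congr
      intro l hl
      have hPl : P (ext τ l) := ⟨⟨l, hl⟩, (ext_of_lt τ hl).symm⟩
      simp only [htt, Function.comp_apply]
      rw [dif_pos hPl]
      rfl
    rw [e] at h
    exact h
  refine (measure_mono hsub).trans ?_
  rw [hmp.measure_preimage hGm.nullMeasurableSet, Measure.prod_apply hGm]
  have hcard : k - q ≤ Fintype.card {i // ¬ P i} := by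
    have h1 : Fintype.card {i // P i} ≤ q := by
      have h2 : Fintype.card {i // P i} ≤ Fintype.card (Fin q) := by
        apply Fintype.card_le_of_surjective (fun l : Fin q => (⟨τ l, l, rfl⟩ : {i // P i}))
        rintro ⟨i, l, rfl⟩
        exact ⟨l, rfl⟩
      simpa using h2
    have h3 : Fintype.card {i // ¬ P i} = Fintype.card (Fin k) - Fintype.card {i // P i} :=
      Fintype.card_subtype_compl P
    rw [h3, Fintype.card_fin]
    omega
  have hint : ∀ u : {i // P i} → X,
      (Measure.pi fun _ : {i // ¬ P i} => μ) (Prod.mk u ⁻¹' G) ≤ b ^ (k - q) := by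
    intro u
    have e : Prod.mk u ⁻¹' G = Set.pi univ (fun _ : {i // ¬ P i} => Av μ R q (tt u)) := by
      ext v
      simp [hG, Set.mem_pi]
    rw [e, Measure.pi_pi, Finset.prod_const, Finset.card_univ]
    calc μ (Av μ R q (tt u)) ^ Fintype.card {i // ¬ P i} ≤ b ^ Fintype.card {i // ¬ P i} := by
          gcongr; exact hb _
      _ ≤ b ^ (k - q) := pow_le_pow_right_of_le_one' hb1 hcard
  calc ∫⁻ u, (Measure.pi fun _ : {i // ¬ P i} => μ) (Prod.mk u ⁻¹' G)
        ∂(Measure.pi fun _ : {i // P i} => μ)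
      ≤ ∫⁻ _, b ^ (k - q) ∂(Measure.pi fun _ : {i // P i} => μ) := lintegral_mono hint
    _ = b ^ (k - q) := by rw [lintegral_const, measure_univ, mul_one]

/-- the container bound for the probability of having no conflict -/
theorem indep_prob [IsProbabilityMeasure μ] (hR : MeasurableSet {p : X × X | R p.1 p.2})
    {p a : ℝ} (hp0 : 0 < p) (hp1 : p ≤ 1) (ha : 0 < a) (ha1 : a ≤ 1) (hs : Supersat μ R p a)
    {k q : ℕ} (hk : 1 ≤ k) (hq : (1 - p / 4) ^ q ≤ a) :
    (Measure.pi fun _ : Fin k => μ).real {x | ∀ i j, i ≠ j → ¬ R (x i) (x j)} ≤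
      (k : ℝ) ^ q * a ^ (k - q) := by
  have : NeZero k := ⟨by omega⟩
  have hb : ∀ t, μ (Av μ R q t) ≤ ENNReal.ofReal a := by
    intro t
    have h := (Av_bound hR hp0 hp1 ha hs q t).trans (max_le le_rfl hq)
    rw [← ENNReal.ofReal_toReal (measure_ne_top μ (Av μ R q t))]
    exact ENNReal.ofReal_le_ofReal h
  have hb1 : ENNReal.ofReal a ≤ 1 := by
    rw [← ENNReal.ofReal_one]; exact ENNReal.ofReal_le_ofReal ha1
  have h1 : (Measure.pi fun _ : Fin k => μ) {x | ∀ i j, i ≠ j → ¬ R (x i) (x j)} ≤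
      ENNReal.ofReal ((k : ℝ) ^ q * a ^ (k - q)) := by
    calc (Measure.pi fun _ : Fin k => μ) {x | ∀ i j, i ≠ j → ¬ R (x i) (x j)}
        ≤ (Measure.pi fun _ : Fin k => μ) (⋃ τ : Fin q → Fin k, Ev μ R τ) :=
          measure_mono (indep_subset q)
      _ ≤ ∑ τ : Fin q → Fin k, (Measure.pi fun _ : Fin k => μ) (Ev μ R τ) :=
          measure_iUnion_fintype_le _ _
      _ ≤ ∑ _τ : Fin q → Fin k, ENNReal.ofReal a ^ (k - q) :=
          Finset.sum_le_sum fun τ _ => Ev_bound hR τ hb hb1
      _ = ENNReal.ofReal ((k : ℝ) ^ q * a ^ (k - q)) := by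
          rw [Finset.sum_const, Finset.card_univ, Fintype.card_fun, Fintype.card_fin,
            Fintype.card_fin, nsmul_eq_mul, ENNReal.ofReal_mul (by positivity),
            ENNReal.ofReal_pow ha.le, ENNReal.ofReal_pow (by positivity), ENNReal.ofReal_natCast]
          push_cast
          rfl
  exact ENNReal.toReal_le_of_le_ofReal (by positivity) h1

end Pool.Agent.Helper49.EJ
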