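import Pool.Agent.Helper47.KP.Dens
import Pool.Agent.Helper49.EJ.Prob

/-!
Every subset of the sphere of measure at least `2 / sqrt (p h)` contains the expected number of
pairs at angle less than 60 degrees.
-/

set_option autoImplicit false

open MeasureTheory Set Metric Polynomial
open scoped RealInnerProductSpace ENNReal

namespace Pool.Agent.Helper49.EJ

open Pool.Agent.Helper47.KP

variable {d : ℕ}

/-- two points of the sphere are in conflict if their angle is less than 60 degrees -/
def Rc (x y : Sph d) : Prop := 1 / 2 < ⟪(x : EE d), (y : EE d)⟫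

/-- indicator of the cap -/
noncomputable def capf (t : ℝ) : ℝ := if 1 / 2 < t then 1 else 0

lemma measurable_capf : Measurable capf :=
  Measurable.ite measurableSet_Ioi measurable_const measurable_const

lemma capf_sq (t : ℝ) : capf t ^ 2 = capf t := by
  unfold capf; split_ifs <;> norm_num

lemma capf_nonneg (t : ℝ) : 0 ≤ capf t := by
  unfold capf; split_ifs <;> norm_num

lemma capf_le (t : ℝ) : capf t ≤ 1 := by
  unfold capf; split_ifs <;> norm_num

/-- the measure of the cap -/
noncomputable def pc (d : ℕ) : ℝ := ∫ t, capf t ∂(den d)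

lemma measurable_Rc : MeasurableSet {p : Sph d × Sph d | Rc p.1 p.2} :=
  (isOpen_Ioi.preimage continuous_inner2).measurableSet

/-- positivity of the Gegenbauer polynomials on `[1/2, 1]` -/
lemma PP_ratio (hd : 3 ≤ d) {r : ℝ} (hr0 : 0 < r) (hr1 : r ≤ 1 / 2) {J : ℕ}
    (hJ : (J : ℝ) * (r ^ 2 - r + 1) ≤ r * d / 2 - r ^ 2 * (d - 1) - 1) {t : ℝ} (ht : 1 / 2 ≤ t)
    (j : ℕ) (hj : j ≤ J + 1) :
    0 < (PP d j).eval t ∧ r * (PP d j).eval t ≤ (PP d (j + 1)).eval t := by
  have hd' : (3 : ℝ) ≤ d := by exact_mod_cast hd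
  induction j with
  | zero =>
    rw [PP_zero, PP_one]
    simp only [eval_one, eval_X]
    constructor <;> linarith
  | succ j ih =>
    obtain ⟨h1, h2⟩ := ih (by omega)
    have hjJ : (j : ℝ) ≤ J := by exact_mod_cast (by omega : j ≤ J)
    have hj0 : (0 : ℝ) ≤ j := Nat.cast_nonneg j
    have hpos : 0 < (PP d (j + 1)).eval t := lt_of_lt_of_le (mul_pos hr0 h1) h2
    refine ⟨hpos, ?_⟩
    have h3 := PP_rec hd j t
    set P0 := (PP d j).eval t
    set P1 := (PP d (j + 1)).eval t
    set P2 := (PP d (j + 1 + 1)).eval t with hP2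
    have h3' : ((j : ℝ) + d - 1) * P2 = (2 * j + d) * (t * P1) - (j + 1) * P0 := h3
    have hrr : 0 < r ^ 2 - r + 1 := by nlinarith
    have h4 : (j : ℝ) * (r ^ 2 - r + 1) ≤ r * d / 2 - r ^ 2 * (d - 1) - 1 :=
      (mul_le_mul_of_nonneg_right hjJ hrr.le).trans hJ
    have h5 : (2 * (j : ℝ) + d) * (P1 / 2) ≤ (2 * j + d) * (t * P1) := by
      apply mul_le_mul_of_nonneg_left _ (by positivity)
      nlinarith
    have h6 : r * (((j : ℝ) + 1) * P0) ≤ (j + 1) * P1 := by nlinarith
    have hc : 0 < (j : ℝ) + d - 1 := by linarith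
    have h7 : r * (((j : ℝ) + d - 1) * P2) ≥ r * (((j : ℝ) + d - 1) * (r * P1)) := by
      rw [h3']
      nlinarith
    have h8 := le_of_mul_le_mul_left h7 hr0
    exact le_of_mul_le_mul_left h8 hc

lemma integrable_den_of_bound {f : ℝ → ℝ} (hf : Measurable f) {C : ℝ}
    (hC : ∀ t ∈ Icc (-1 : ℝ) 1, |f t| ≤ C) : Integrable f (den d) := by
  refine Integrable.of_bound hf.aestronglyMeasurable C ?_
  filter_upwards [den_supp] with t ht
  rw [Real.norm_eq_abs]
  exact hC t ht

lemma exists_bd_PP (j : ℕ) : ∃ C : ℝ, 0 ≤ C ∧ ∀ t ∈ Icc (-1 : ℝ) 1, |(PP d j).eval t| ≤ C := by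
  obtain ⟨C, hC⟩ := (isCompact_Icc (a := (-1 : ℝ)) (b := 1)).image (PP d j).continuous
    |>.isBounded.exists_norm_le
  exact ⟨max C 0, le_max_right _ _, fun t ht => (hC _ ⟨t, ht, rfl⟩).trans (le_max_left _ _)⟩

lemma integral_sq_den [NeZero d] (j : ℕ) :
    ∫ t, (PP d j).eval t ^ 2 ∂(den d) = nrm d j := by
  rw [integral_den]; rfl

/-- the coefficients of the cap are bounded below -/
lemma coef_ge [NeZero d] (hd : 3 ≤ d) (hp : 0 < pc d) {r : ℝ} (hr0 : 0 < r) (hr1 : r ≤ 1 / 2)
    {J : ℕ} (hJ : (J : ℝ) * (r ^ 2 - r + 1) ≤ r * d / 2 - r ^ 2 * (d - 1) - 1) {ε : ℝ}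
    (hε : 0 < ε) (hε2 : 1 / (pc d * (Nat.choose (J + 1 + (d - 3)) (J + 1) : ℝ)) ≤ ε ^ 2)
    (j : ℕ) (_hj : 1 ≤ j) :
    -ε ≤ ∫ t, (capf t / pc d) * (PP d j).eval t ∂(den d) := by
  by_cases hjJ : j ≤ J
  · have h0 : 0 ≤ ∫ t, (capf t / pc d) * (PP d j).eval t ∂(den d) := by
      apply integral_nonneg
      intro t
      simp only [Pi.zero_apply]
      by_cases ht : 1 / 2 < t
      · have := (PP_ratio hd hr0 hr1 hJ ht.le j (by omega)).1
        exact mul_nonneg (div_nonneg (capf_nonneg t) hp.le) this.le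
      · unfold capf; rw [if_neg ht]; simp
    linarith
  · push Not at hjJ
    obtain ⟨C, hC0, hC⟩ := exists_bd_PP (d := d) j
    have hch : 0 < (Nat.choose (J + 1 + (d - 3)) (J + 1) : ℝ) := by
      exact_mod_cast Nat.choose_pos (by omega)
    have hnj := nrm_le hd (n := J + 1) (j := j) (by omega)
    set c := ε * pc d with hc
    have hc0 : 0 < c := mul_pos hε hp
    have hi1 : Integrable (fun t => (capf t / pc d) * (PP d j).eval t) (den d) := by
      refine integrable_den_of_bound (C := 1 / pc d * C)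
        ((measurable_capf.div_const _).mul (PP d j).continuous.measurable) fun t ht => ?_
      rw [abs_mul]
      apply mul_le_mul _ (hC t ht) (abs_nonneg _) (by positivity)
      rw [abs_of_nonneg (div_nonneg (capf_nonneg t) hp.le)]
      exact div_le_div_of_nonneg_right (capf_le t) hp.le
    have hia : Integrable (fun t => c * (capf t / pc d ^ 2)) (den d) := by
      refine integrable_den_of_bound (C := c * (1 / pc d ^ 2))
        ((measurable_capf.div_const _).const_mul _) fun t _ => ?_
      rw [abs_of_nonneg (mul_nonneg hc0.le (div_nonneg (capf_nonneg t) (by positivity)))]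
      exact mul_le_mul_of_nonneg_left
        (div_le_div_of_nonneg_right (capf_le t) (by positivity)) hc0.le
    have hib : Integrable (fun t => (PP d j).eval t ^ 2 / c) (den d) := by
      refine integrable_den_of_bound (C := C ^ 2 / c)
        (((PP d j).continuous.measurable.pow_const 2).div_const _) fun t ht => ?_
      rw [abs_of_nonneg (div_nonneg (sq_nonneg _) hc0.le)]
      apply div_le_div_of_nonneg_right _ hc0.le
      rw [← sq_abs]
      exact pow_le_pow_left₀ (abs_nonneg _) (hC t ht) 2
    have hi2 : Integrable (fun t => c * (capf t / pc d ^ 2) + (PP d j).eval t ^ 2 / c) (den d) :=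
      hia.add hib
    have h1 : ∫ t, -(capf t / pc d) * (PP d j).eval t ∂(den d) ≤
        ∫ t, (c * (capf t / pc d ^ 2) + (PP d j).eval t ^ 2 / c) / 2 ∂(den d) := by
      apply integral_mono
      · have := hi1.neg
        refine this.congr (Filter.Eventually.of_forall fun t => ?_)
        simp only [Pi.neg_apply]; ring
      · exact hi2.div_const 2
      · intro t
        have e1 : capf t / pc d ^ 2 = (capf t / pc d) ^ 2 := by rw [div_pow, capf_sq]
        show -(capf t / pc d) * (PP d j).eval t ≤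
          (c * (capf t / pc d ^ 2) + (PP d j).eval t ^ 2 / c) / 2
        rw [e1]
        set u := capf t / pc d
        set v := (PP d j).eval t
        have h2 : 0 ≤ (c * u + v) ^ 2 / c := by positivity
        have h3 : (c * u + v) ^ 2 / c = c * u ^ 2 + v ^ 2 / c + 2 * (u * v) := by
          field_simp; ring
        linarith
    have h2 : ∫ t, (c * (capf t / pc d ^ 2) + (PP d j).eval t ^ 2 / c) / 2 ∂(den d) =
        (c * (pc d / pc d ^ 2) + nrm d j / c) / 2 := by
      rw [integral_div, integral_add hia hib, integral_const_mul, integral_div, integral_div,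
        integral_sq_den]
      rfl
    have h3 : c * (pc d / pc d ^ 2) = ε := by
      rw [hc]; field_simp
    have h4 : nrm d j / c ≤ ε := by
      rw [div_le_iff₀ hc0]
      have h5 : 1 / (Nat.choose (J + 1 + (d - 3)) (J + 1) : ℝ) ≤ ε ^ 2 * pc d := by
        have h6 := mul_le_mul_of_nonneg_right hε2 hp.le
        have h7 : 1 / (pc d * (Nat.choose (J + 1 + (d - 3)) (J + 1) : ℝ)) * pc d =
            1 / (Nat.choose (J + 1 + (d - 3)) (J + 1) : ℝ) := by field_simp
        rw [h7] at h6
        exact h6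
      calc nrm d j ≤ _ := hnj
        _ ≤ ε ^ 2 * pc d := h5
        _ = ε * c := by rw [hc]; ring
    have h5 : ∫ t, -(capf t / pc d) * (PP d j).eval t ∂(den d) =
        -∫ t, (capf t / pc d) * (PP d j).eval t ∂(den d) := by
      rw [← integral_neg]
      congr 1; funext t; ring
    rw [h5, h2, h3] at h1
    linarith

/-- sets of measure at least `2 ε` contain many pairs in conflict -/
theorem supersat [NeZero d] (hd : 3 ≤ d) (hp : 0 < pc d) {r : ℝ} (hr0 : 0 < r) (hr1 : r ≤ 1 / 2)
    {J : ℕ} (hJ : (J : ℝ) * (r ^ 2 - r + 1) ≤ r * d / 2 - r ^ 2 * (d - 1) - 1) {ε : ℝ}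
    (hε : 0 < ε) (hε2 : 1 / (pc d * (Nat.choose (J + 1 + (d - 3)) (J + 1) : ℝ)) ≤ ε ^ 2)
    {a : ℝ} (ha : 2 * ε ≤ a) : Supersat (sig d) (Rc (d := d)) (pc d) a := by
  intro A hA hAa
  have hRm : ∀ x : Sph d, MeasurableSet {z | Rc x z} :=
    fun x => (measurable_prodMk_left (x := x)) measurable_Rc
  set φ : Sph d → ℝ := A.indicator fun _ => 1 with hφ
  have hBM : BM φ 1 := by
    refine ⟨measurable_const.indicator hA, fun x => ?_⟩
    simp only [hφ, indicator]
    split_ifs <;> norm_num
  have h0 : ∫ t, capf t / pc d ∂(den d) = 1 := by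
    rw [integral_div]; exact div_self hp.ne'
  have hG : ∀ t, |capf t / pc d| ≤ 1 / pc d := fun t => by
    rw [abs_of_nonneg (div_nonneg (capf_nonneg t) hp.le)]
    exact div_le_div_of_nonneg_right (capf_le t) hp.le
  have key := op_ineq hd (g := fun t => capf t / pc d) (measurable_capf.div_const _) hG h0 hε.le
    (fun j hj => coef_ge hd hp hr0 hr1 hJ hε hε2 j hj) hBM
  have e1 : ∫ x : Sph d, φ x ∂(sig d) = (sig d).real A := by
    rw [hφ, integral_indicator hA, setIntegral_const, smul_eq_mul, mul_one]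
  have e2 : ∫ x : Sph d, φ x ^ 2 ∂(sig d) = (sig d).real A := by
    rw [← e1]
    congr 1; funext x
    simp only [hφ, indicator]
    split_ifs <;> norm_num
  have e3 : QF (fun t => capf t / pc d) φ =
      (∫ x in A, (sig d).real (A ∩ {z | Rc x z}) ∂(sig d)) / pc d := by
    unfold QF
    rw [← integral_indicator hA, ← integral_div]
    congr 1; funext x
    have e4 : ∫ y : Sph d, φ y * (capf ⟪(x : EE d), (y : EE d)⟫ / pc d) ∂(sig d) =
        (sig d).real (A ∩ {z | Rc x z}) / pc d := by
      have e5 : (fun y : Sph d => φ y * (capf ⟪(x : EE d), (y : EE d)⟫ / pc d)) =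
          fun y => ((A ∩ {z | Rc x z}).indicator (fun _ => (1 : ℝ)) y) / pc d := by
        funext y
        by_cases hy : y ∈ A
        · by_cases hy2 : Rc x y
          · have : y ∈ A ∩ {z | Rc x z} := ⟨hy, hy2⟩
            rw [indicator_of_mem this, hφ, indicator_of_mem hy]
            unfold Rc at hy2
            unfold capf; rw [if_pos hy2]; ring
          · have : y ∉ A ∩ {z | Rc x z} := fun h => hy2 h.2
            rw [indicator_of_notMem this]
            unfold Rc at hy2
            unfold capf; rw [if_neg hy2]; ring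
        · have : y ∉ A ∩ {z | Rc x z} := fun h => hy h.1
          rw [indicator_of_notMem this, hφ, indicator_of_notMem hy]; ring
      rw [e5, integral_div, integral_indicator (hA.inter (hRm x)), setIntegral_const, smul_eq_mul,
        mul_one]
    rw [e4]
    by_cases hx : x ∈ A
    · rw [hφ, indicator_of_mem hx, indicator_of_mem hx]; ring
    · rw [hφ, indicator_of_notMem hx, indicator_of_notMem hx]; ring
  rw [e1, e2, e3] at key
  set m := (sig d).real A with hm
  have hm0 : 2 * ε ≤ m := ha.trans hAa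
  have h1 : m ^ 2 / 2 ≤ m ^ 2 - ε * m := by nlinarith
  have h2 := h1.trans key
  rw [le_div_iff₀ hp] at h2
  linarith

end Pool.Agent.Helper49.EJ
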