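import Mathlib

/-!
Containers (Kleitman-Winston) for independent sets in a measure space with a measurable symmetric
conflict relation: if every set of measure at least `a` contains many conflicts, then the
probability that `k` independent random points have no conflict is at most `k^q a^(k-q)`.
-/

set_option autoImplicit false

open MeasureTheory Set

namespace Pool.Agent.Helper49.EJ

variable {X : Type*} [MeasurableSpace X]

/-- the available sets of the algorithm: after the points `t 0, ..., t (j-1)` have been selected -/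
noncomputable def Av (μ : Measure X) (R : X → X → Prop) : ℕ → (ℕ → X) → Set X
  | 0, _ => univ
  | (j + 1), t => {y | y ∈ Av μ R j t ∧
      μ (Av μ R j t ∩ {z | R y z}) ≤ μ (Av μ R j t ∩ {z | R (t j) z}) ∧ ¬ R (t j) y}

variable {μ : Measure X} {R : X → X → Prop}

lemma Av_zero (t : ℕ → X) : Av μ R 0 t = univ := rfl

lemma mem_Av_succ {j : ℕ} {t : ℕ → X} {y : X} : y ∈ Av μ R (j + 1) t ↔ y ∈ Av μ R j t ∧
    μ (Av μ R j t ∩ {z | R y z}) ≤ μ (Av μ R j t ∩ {z | R (t j) z}) ∧ ¬ R (t j) y := Iff.rfl

/-- the available set depends only on the points selected before -/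
lemma Av_congr {j : ℕ} {t s : ℕ → X} (h : ∀ i < j, t i = s i) : Av μ R j t = Av μ R j s := by
  induction j with
  | zero => rfl
  | succ j ih =>
    have h1 := ih fun i hi => h i (by omega)
    ext y
    rw [mem_Av_succ, mem_Av_succ, h1, h j (by omega)]

lemma measurable_Av [SFinite μ] (hR : MeasurableSet {p : X × X | R p.1 p.2}) (j : ℕ) :
    MeasurableSet {p : (ℕ → X) × X | p.2 ∈ Av μ R j p.1} := by
  induction j with
  | zero => simp [Av_zero]
  | succ j ih =>
    have hS : MeasurableSet {p : ((ℕ → X) × X) × X | p.2 ∈ Av μ R j p.1.1 ∧ R p.1.2 p.2} := by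
      apply MeasurableSet.inter
      · exact (show Measurable (fun p : ((ℕ → X) × X) × X => (p.1.1, p.2)) by fun_prop) ih
      · exact (show Measurable (fun p : ((ℕ → X) × X) × X => (p.1.2, p.2)) by fun_prop) hR
    have hdeg : Measurable (fun p : (ℕ → X) × X => μ (Av μ R j p.1 ∩ {z | R p.2 z})) :=
      measurable_measure_prodMk_left hS
    have e : {p : (ℕ → X) × X | p.2 ∈ Av μ R (j + 1) p.1} =
        {p : (ℕ → X) × X | p.2 ∈ Av μ R j p.1} ∩
        ({p : (ℕ → X) × X | μ (Av μ R j p.1 ∩ {z | R p.2 z}) ≤
          μ (Av μ R j p.1 ∩ {z | R (p.1 j) z})} ∩ {p : (ℕ → X) × X | R (p.1 j) p.2}ᶜ) := by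
      ext p
      simp only [mem_ofPred_eq, mem_inter_iff, mem_compl_iff]
      exact mem_Av_succ
    rw [e]
    refine ih.inter (MeasurableSet.inter ?_ (MeasurableSet.compl ?_))
    · refine measurableSet_le hdeg ?_
      exact hdeg.comp (show Measurable (fun p : (ℕ → X) × X => (p.1, p.1 j)) by fun_prop)
    · exact (show Measurable (fun p : (ℕ → X) × X => (p.1 j, p.2)) by fun_prop) hR

lemma measurable_Av_slice [SFinite μ] (hR : MeasurableSet {p : X × X | R p.1 p.2}) (j : ℕ)
    (t : ℕ → X) : MeasurableSet (Av μ R j t) :=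
  (measurable_prodMk_left (x := t)) (measurable_Av hR j)

/-- sets of measure at least `a` contain many conflicts -/
def Supersat (μ : Measure X) (R : X → X → Prop) (p a : ℝ) : Prop :=
  ∀ A : Set X, MeasurableSet A → a ≤ μ.real A →
    p / 2 * μ.real A ^ 2 ≤ ∫ x in A, μ.real (A ∩ {z | R x z}) ∂μ

lemma step [IsProbabilityMeasure μ] (hR : MeasurableSet {p : X × X | R p.1 p.2}) {p a : ℝ}
    (hp0 : 0 < p) (hp1 : p ≤ 1) (ha : 0 < a) (hs : Supersat μ R p a) (j : ℕ) (t : ℕ → X) :
    μ.real (Av μ R (j + 1) t) ≤ max a ((1 - p / 4) * μ.real (Av μ R j t)) := by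
  set A := Av μ R j t with hA
  have hAm : MeasurableSet A := measurable_Av_slice hR j t
  have hA'm : MeasurableSet (Av μ R (j + 1) t) := measurable_Av_slice hR (j + 1) t
  have hRm : ∀ x, MeasurableSet {z | R x z} := fun x => (measurable_prodMk_left (x := x)) hR
  set δ := μ.real (A ∩ {z | R (t j) z}) with hδ
  have hA0 : 0 ≤ μ.real A := measureReal_nonneg
  by_cases hc : p / 4 * μ.real A ≤ δ
  · -- the selected point has large degree
    refine le_trans ?_ (le_max_right _ _)
    have h1 : μ.real (Av μ R (j + 1) t) ≤ μ.real (A \ {z | R (t j) z}) := by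
      exact measureReal_mono (fun y hy => ⟨hy.1, hy.2.2⟩) (measure_ne_top _ _)
    have h2 : μ.real (A \ {z | R (t j) z}) + δ = μ.real A := by
      have := measureReal_inter_add_sdiff (μ := μ) (s := A) (hRm (t j))
      linarith
    linarith
  · push Not at hc
    set L := {y | y ∈ A ∧ μ (A ∩ {z | R y z}) ≤ μ (A ∩ {z | R (t j) z})} with hL
    have hsub : Av μ R (j + 1) t ⊆ L := fun y hy => ⟨hy.1, hy.2.1⟩
    have hle : μ.real (Av μ R (j + 1) t) ≤ μ.real L := measureReal_mono hsub
    by_cases hLa : μ.real L < a
    · exact (hle.trans hLa.le).trans (le_max_left _ _)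
    · push Not at hLa
      refine le_trans ?_ (le_max_right _ _)
      have hLm : MeasurableSet L := by
        have hdeg : Measurable (fun y : X => μ (A ∩ {z | R y z})) := by
          have hS : MeasurableSet {p : X × X | p.2 ∈ A ∧ R p.1 p.2} :=
            (measurable_snd hAm).inter hR
          exact measurable_measure_prodMk_left hS
        exact hAm.inter (measurableSet_le hdeg measurable_const)
      have h1 := hs L hLm hLa
      have h2 : ∫ x in L, μ.real (L ∩ {z | R x z}) ∂μ ≤ ∫ x in L, δ ∂μ := by
        apply setIntegral_mono_on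
        · apply Integrable.integrableOn
          apply Integrable.of_bound (C := 1)
          · have hS : MeasurableSet {p : X × X | p.2 ∈ L ∧ R p.1 p.2} :=
              (measurable_snd hLm).inter hR
            exact (measurable_measure_prodMk_left hS).ennreal_toReal.aestronglyMeasurable
          · exact Filter.Eventually.of_forall fun x => by
              rw [Real.norm_eq_abs, abs_of_nonneg measureReal_nonneg]
              exact measureReal_le_one
        · exact integrableOn_const
        · exact hLm
        · intro x hx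
          have h3 : μ.real (L ∩ {z | R x z}) ≤ μ.real (A ∩ {z | R x z}) := by
            exact measureReal_mono (fun y hy => ⟨hy.1.1, hy.2⟩) (measure_ne_top _ _)
          refine h3.trans ?_
          exact ENNReal.toReal_mono (measure_ne_top _ _) hx.2
      rw [setIntegral_const, smul_eq_mul] at h2
      have hL0 : 0 < μ.real L := ha.trans_le hLa
      have h4 : p / 2 * μ.real L ^ 2 < μ.real L * (p / 4 * μ.real A) := by
        calc p / 2 * μ.real L ^ 2 ≤ μ.real L * δ := h1.trans h2
          _ < μ.real L * (p / 4 * μ.real A) := mul_lt_mul_of_pos_left hc hL0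
      have h5 : μ.real L < μ.real A / 2 := by
        have h6 : μ.real L * (p * (μ.real L)) < μ.real L * (p * (μ.real A / 2)) := by nlinarith
        have h7 := lt_of_mul_lt_mul_left h6 hL0.le
        exact lt_of_mul_lt_mul_left h7 hp0.le
      nlinarith

/-- the available sets shrink -/
lemma Av_bound [IsProbabilityMeasure μ] (hR : MeasurableSet {p : X × X | R p.1 p.2}) {p a : ℝ}
    (hp0 : 0 < p) (hp1 : p ≤ 1) (ha : 0 < a) (hs : Supersat μ R p a) (j : ℕ) (t : ℕ → X) :
    μ.real (Av μ R j t) ≤ max a ((1 - p / 4) ^ j) := by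
  induction j with
  | zero => rw [pow_zero]; exact measureReal_le_one.trans (le_max_right _ _)
  | succ j ih =>
    refine (step hR hp0 hp1 ha hs j t).trans (max_le (le_max_left _ _) ?_)
    have h0 : (0 : ℝ) ≤ 1 - p / 4 := by linarith
    refine (mul_le_mul_of_nonneg_left ih h0).trans ?_
    rw [mul_max_of_nonneg _ _ h0]
    refine max_le ?_ ?_
    · exact (mul_le_of_le_one_left ha.le (by linarith)).trans (le_max_left _ _)
    · rw [pow_succ']; exact le_max_right _ _

/-- the fingerprint of an independent tuple -/
lemma exists_fingerprint {k : ℕ} [NeZero k] (x : Fin k → X)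
    (hx : ∀ i j, i ≠ j → ¬ R (x i) (x j)) (q : ℕ) :
    ∃ τ : ℕ → Fin k, ∀ i, (∀ l < q, τ l ≠ i) → x i ∈ Av μ R q (x ∘ τ) := by
  classical
  induction q with
  | zero => exact ⟨fun _ => 0, fun i _ => by rw [Av_zero]; trivial⟩
  | succ q ih =>
    obtain ⟨τ, hτ⟩ := ih
    by_cases hne : ∃ i, ∀ l < q, τ l ≠ i
    · set F : Finset (Fin k) := Finset.univ.filter fun i => ∀ l < q, τ l ≠ i with hF
      have hFne : F.Nonempty := by
        obtain ⟨i, hi⟩ := hne
        exact ⟨i, by simp [hF]; exact hi⟩
      obtain ⟨m, hmF, hm⟩ := F.exists_max_image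
        (fun i => μ (Av μ R q (x ∘ τ) ∩ {z | R (x i) z})) hFne
      refine ⟨Function.update τ q m, fun i hi => ?_⟩
      have hc : Av μ R q (x ∘ Function.update τ q m) = Av μ R q (x ∘ τ) := by
        apply Av_congr
        intro l hl
        simp only [Function.comp_apply]
        rw [Function.update_of_ne (by omega)]
      have hi1 : ∀ l < q, τ l ≠ i := by
        intro l hl
        have := hi l (by omega)
        rwa [Function.update_of_ne (by omega)] at this
      have hi2 : m ≠ i := by
        have := hi q (by omega)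
        rwa [Function.update_self] at this
      have hiF : i ∈ F := by simp [hF]; exact hi1
      rw [mem_Av_succ, hc]
      simp only [Function.comp_apply, Function.update_self]
      exact ⟨hτ i hi1, hm i hiF, hx m i hi2⟩
    · push Not at hne
      refine ⟨τ, fun i hi => ?_⟩
      obtain ⟨l, hl, hl2⟩ := hne i
      exact absurd hl2 (hi l (by omega))

end Pool.Agent.Helper49.EJ
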