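import Pool.Agent.Helper49.EJ.Upper
import Pool.Agent.Helper84.RK.LowerFin

/-!
The two-sided theorem on the largest kissing configuration among random points.
-/

set_option autoImplicit false

open MeasureTheory

namespace Pool.Agent.Helper49.EJ

open Pool.Agent.Helper47.KP

/-- the two-sided theorem -/
theorem two_sided {s₁ s₂ : ℝ} (h1 : Real.logb 2 (2 / Real.sqrt 3) < s₁)
    (h2 : s₂ < Real.logb 2 (2 + Real.sqrt 3) / Real.sqrt 3 - Real.logb 2 3 / 2) :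
    ∃ c C δ : ℝ, 0 < c ∧ 0 < C ∧ 0 < δ ∧ ∃ d₀ : ℕ, ∀ d : ℕ, d₀ ≤ d → ∀ n : ℕ,
      2 ^ (s₁ * d) ≤ (n : ℝ) → (n : ℝ) ≤ 2 ^ (s₂ * d) →
      (Measure.pi fun _ : Fin n => sig d).real
        {x | ¬ (c * ord d ≤ (maxBalls x : ℝ) ∧ (maxBalls x : ℝ) ≤ C * ord d)} ≤
        2 ^ (-(δ * d)) := by
  rw [← threshold_eq] at h2
  obtain ⟨C, hC, d1, hU⟩ := upper h2
  obtain ⟨c, hc, δ, hδ, d2, hL⟩ := Pool.Agent.Helper84.RK.lower h1
  set ε : ℝ := min (δ / 2) (1 / 2) with hε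
  have hε0 : 0 < ε := by rw [hε]; positivity
  have hε1 : ε ≤ δ / 2 := min_le_left _ _
  have hε2 : ε ≤ 1 / 2 := min_le_right _ _
  refine ⟨c, C, ε, hc, hC, hε0, max (max d1 d2) (max 1 ⌈1 / ε⌉₊), fun d hd n hn1 hn2 => ?_⟩
  have hd1 : d1 ≤ d := (le_max_left _ _).trans ((le_max_left _ _).trans hd)
  have hd2 : d2 ≤ d := (le_max_right _ _).trans ((le_max_left _ _).trans hd)
  have hd3 : 1 ≤ d := (le_max_left _ _).trans ((le_max_right _ _).trans hd)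
  have hd4 : ⌈1 / ε⌉₊ ≤ d := (le_max_right _ _).trans ((le_max_right _ _).trans hd)
  have hd' : (1 : ℝ) ≤ d := by exact_mod_cast hd3
  have hεd : 1 ≤ ε * d := by
    have : 1 / ε ≤ d := (Nat.le_ceil _).trans (by exact_mod_cast hd4)
    rw [div_le_iff₀ hε0] at this
    linarith
  have : NeZero d := ⟨by omega⟩
  have hu := hU d hd1 n hn2
  have hl : (Measure.pi fun _ : Fin n => sig d).real
      {x | ¬ ∃ I, Kis x I ∧ c * ord d ≤ (I.card : ℝ)} ≤ 2 ^ (-(δ * d)) := hL d hd2 n hn1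
  have h := assemble hu hl
  have h3 : (2 : ℝ) ^ (-(d : ℝ)) ≤ 2 ^ (-(ε * d)) / 2 := by
    rw [le_div_iff₀ (by norm_num)]
    have e : (2 : ℝ) ^ (-(d : ℝ)) * 2 = 2 ^ (-(d : ℝ) + 1) := by
      rw [Real.rpow_add (by norm_num), Real.rpow_one]
    rw [e]
    apply Real.rpow_le_rpow_of_exponent_le (by norm_num)
    nlinarith
  have h4 : (2 : ℝ) ^ (-(δ * d)) ≤ 2 ^ (-(ε * d)) / 2 := by
    rw [le_div_iff₀ (by norm_num)]
    have e : (2 : ℝ) ^ (-(δ * d)) * 2 = 2 ^ (-(δ * d) + 1) := by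
      rw [Real.rpow_add (by norm_num), Real.rpow_one]
    rw [e]
    apply Real.rpow_le_rpow_of_exponent_le (by norm_num)
    nlinarith
  linarith

end Pool.Agent.Helper49.EJ
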