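import Mathlib

/-!
The mean of a birth-type weight sequence `λ^k / k! * P k`, `0 ≤ P k ≤ 1`.
-/

set_option autoImplicit false

open scoped Nat

namespace Pool.Agent.Helper49.EJ

variable {P : ℕ → ℝ} {lam : ℝ}

/-- the weights -/
noncomputable def wt (P : ℕ → ℝ) (lam : ℝ) (k : ℕ) : ℝ := lam ^ k / (k ! : ℝ) * P k

/-- the partition function -/
noncomputable def ZZ (P : ℕ → ℝ) (lam : ℝ) : ℝ := ∑' k : ℕ, wt P lam k

/-- the mean size -/
noncomputable def mn (P : ℕ → ℝ) (lam : ℝ) : ℝ := (∑' k : ℕ, (k : ℝ) * wt P lam k) / ZZ P lam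

lemma wt_nonneg (h0 : ∀ k, 0 ≤ P k) (hl : 0 ≤ lam) (k : ℕ) : 0 ≤ wt P lam k :=
  mul_nonneg (by positivity) (h0 k)

lemma wt_le (h1 : ∀ k, P k ≤ 1) (hl : 0 ≤ lam) (k : ℕ) : wt P lam k ≤ lam ^ k / (k ! : ℝ) :=
  mul_le_of_le_one_right (by positivity) (h1 k)

lemma summable_wt (h0 : ∀ k, 0 ≤ P k) (h1 : ∀ k, P k ≤ 1) (hl : 0 ≤ lam) :
    Summable (wt P lam) :=
  Summable.of_nonneg_of_le (wt_nonneg h0 hl) (wt_le h1 hl) (Real.summable_pow_div_factorial lam)

lemma summable_mul_wt (h0 : ∀ k, 0 ≤ P k) (h1 : ∀ k, P k ≤ 1) (hl : 0 ≤ lam) :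
    Summable (fun k : ℕ => (k : ℝ) * wt P lam k) := by
  have hs := Real.summable_pow_div_factorial (2 * lam)
  refine Summable.of_nonneg_of_le (fun k => mul_nonneg (Nat.cast_nonneg k) (wt_nonneg h0 hl k))
    (fun k => ?_) hs
  have h2 : (k : ℝ) ≤ 2 ^ k := by exact_mod_cast k.lt_two_pow_self.le
  calc (k : ℝ) * wt P lam k ≤ 2 ^ k * (lam ^ k / (k ! : ℝ)) :=
        mul_le_mul h2 (wt_le h1 hl k) (wt_nonneg h0 hl k) (by positivity)
    _ = (2 * lam) ^ k / (k ! : ℝ) := by rw [mul_pow]; ring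

lemma one_le_ZZ (h0 : ∀ k, 0 ≤ P k) (h1 : ∀ k, P k ≤ 1) (hP : P 0 = 1) (hl : 0 ≤ lam) :
    1 ≤ ZZ P lam := by
  have h := (summable_wt h0 h1 hl).sum_le_tsum {0} (fun i _ => wt_nonneg h0 hl i)
  simpa [wt, hP, ZZ] using h

lemma wt_le_ZZ (h0 : ∀ k, 0 ≤ P k) (h1 : ∀ k, P k ≤ 1) (hl : 0 ≤ lam) (k : ℕ) :
    wt P lam k ≤ ZZ P lam := by
  have h := (summable_wt h0 h1 hl).sum_le_tsum {k} (fun i _ => wt_nonneg h0 hl i)
  simpa [ZZ] using h

/-- if the weights decay from `K` on, the mean is at most `K + 2` -/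
theorem mn_upper (h0 : ∀ k, 0 ≤ P k) (h1 : ∀ k, P k ≤ 1) (hP : P 0 = 1) (hl : 0 ≤ lam)
    {K q : ℝ} (hq : 0 ≤ q) (hK : 4 * Real.exp 1 * (lam * q) ≤ K)
    (hPq : ∀ k : ℕ, K ≤ k → P k ≤ q ^ k) : mn P lam ≤ K + 2 := by
  have hK0 : 0 ≤ K := le_trans (by positivity) hK
  have hZ := one_le_ZZ h0 h1 hP hl
  have hterm : ∀ k : ℕ, (k : ℝ) * wt P lam k ≤ K * wt P lam k + (1 / 2) ^ k := by
    intro k
    rcases lt_or_ge (k : ℝ) K with h | h
    · have := mul_le_mul_of_nonneg_right h.le (wt_nonneg h0 hl k)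
      have h2 : (0 : ℝ) ≤ (1 / 2) ^ k := by positivity
      linarith
    · have h3 : 0 ≤ K * wt P lam k := mul_nonneg hK0 (wt_nonneg h0 hl k)
      suffices h4 : (k : ℝ) * wt P lam k ≤ (1 / 2) ^ k by linarith
      rcases Nat.eq_zero_or_pos k with rfl | hk
      · simp
      have hk0 : (0 : ℝ) < k := by exact_mod_cast hk
      have h5 : wt P lam k ≤ (1 / 4) ^ k := by
        have h6 : (k : ℝ) ^ k / (k ! : ℝ) ≤ Real.exp k :=
          Real.pow_div_factorial_le_exp (x := (k : ℝ)) hk0.le k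
        have h7 : lam * q * Real.exp 1 / k ≤ 1 / 4 := by
          rw [div_le_iff₀ hk0]
          nlinarith
        calc wt P lam k ≤ lam ^ k / (k ! : ℝ) * q ^ k :=
              mul_le_mul_of_nonneg_left (hPq k h) (by positivity)
          _ = ((k : ℝ) ^ k / (k ! : ℝ)) * (lam * q / k) ^ k := by
              rw [div_pow, mul_pow]; field_simp
          _ ≤ Real.exp k * (lam * q / k) ^ k :=
              mul_le_mul_of_nonneg_right h6 (by positivity)
          _ = (lam * q * Real.exp 1 / k) ^ k := by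
              rw [show lam * q * Real.exp 1 / k = Real.exp 1 * (lam * q / k) by ring, mul_pow,
                ← Real.exp_nat_mul, mul_one]
          _ ≤ (1 / 4) ^ k := pow_le_pow_left₀ (by positivity) h7 k
      have h8 : (k : ℝ) ≤ 2 ^ k := by exact_mod_cast k.lt_two_pow_self.le
      calc (k : ℝ) * wt P lam k ≤ 2 ^ k * (1 / 4) ^ k :=
            mul_le_mul h8 h5 (wt_nonneg h0 hl k) (by positivity)
        _ = (1 / 2) ^ k := by rw [← mul_pow]; norm_num
  have hs1 := summable_mul_wt h0 h1 hl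
  have hs2 := summable_wt h0 h1 hl
  have hs3 : Summable (fun k : ℕ => ((1 / 2 : ℝ)) ^ k) :=
    summable_geometric_of_lt_one (by norm_num) (by norm_num)
  have hsum : ∑' k : ℕ, (k : ℝ) * wt P lam k ≤ K * ZZ P lam + 2 := by
    calc ∑' k : ℕ, (k : ℝ) * wt P lam k ≤ ∑' k : ℕ, (K * wt P lam k + (1 / 2) ^ k) :=
          hs1.tsum_le_tsum hterm ((hs2.mul_left K).add hs3)
      _ = K * ZZ P lam + 2 := by
          rw [(hs2.mul_left K).tsum_add hs3, tsum_mul_left, tsum_geometric_two]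
          rfl
  unfold mn
  rw [div_le_iff₀ (by linarith)]
  nlinarith

/-- the mean controls the growth of the partition function -/
theorem mn_lower (h0 : ∀ k, 0 ≤ P k) (h1 : ∀ k, P k ≤ 1) (hP : P 0 = 1) (hl : 1 ≤ lam) :
    Real.log (ZZ P lam) - 1 ≤ mn P lam * Real.log lam := by
  have hl0 : 0 < lam := by linarith
  set m := mn P lam with hm
  set L := Real.log lam with hL
  have hZ := one_le_ZZ h0 h1 hP hl0.le
  have hs1 := summable_mul_wt h0 h1 hl0.le
  have hs2 := summable_wt h0 h1 hl0.le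
  have hs3 : Summable (wt P 1) := summable_wt h0 h1 zero_le_one
  have hsumk : ∑' k : ℕ, (k : ℝ) * wt P lam k = m * ZZ P lam := by
    rw [hm, mn, div_mul_cancel₀]
    linarith
  have hterm : ∀ k : ℕ, Real.exp (-(m * L)) * ((1 + m * L) * wt P lam k -
      L * ((k : ℝ) * wt P lam k)) ≤ wt P 1 k := by
    intro k
    have h2 : wt P 1 k = Real.exp (-(k * L)) * wt P lam k := by
      unfold wt
      have h3 : Real.exp (-(k * L)) = (lam ^ k)⁻¹ := by
        rw [Real.exp_neg, Real.exp_nat_mul, hL, Real.exp_log hl0]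
      rw [h3, one_pow]
      field_simp
    rw [h2]
    have h4 : Real.exp (-(k * L)) = Real.exp (-(m * L)) * Real.exp ((m - k) * L) := by
      rw [← Real.exp_add]; congr 1; ring
    rw [h4]
    have h5 := Real.add_one_le_exp ((m - k) * L)
    have h6 := wt_nonneg h0 hl0.le (P := P) (lam := lam) k
    have h7 := (Real.exp_pos (-(m * L))).le
    calc Real.exp (-(m * L)) * ((1 + m * L) * wt P lam k - L * ((k : ℝ) * wt P lam k))
        = Real.exp (-(m * L)) * (((m - k) * L + 1) * wt P lam k) := by ring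
      _ ≤ Real.exp (-(m * L)) * (Real.exp ((m - k) * L) * wt P lam k) := by gcongr
      _ = _ := by ring
  have hZ1 : Real.exp (-(m * L)) * ZZ P lam ≤ ZZ P 1 := by
    have h8 := ((hs2.mul_left (1 + m * L)).sub (hs1.mul_left L)).mul_left
      (Real.exp (-(m * L)))
    have h9 := h8.tsum_le_tsum hterm hs3
    rw [tsum_mul_left, (hs2.mul_left (1 + m * L)).tsum_sub (hs1.mul_left L), tsum_mul_left,
      tsum_mul_left, hsumk] at h9
    have e : (1 + m * L) * ∑' k, wt P lam k - L * (m * ZZ P lam) = ZZ P lam := by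
      unfold ZZ; ring
    rw [e] at h9
    exact h9
  have hZe : ZZ P 1 ≤ Real.exp 1 := by
    have h10 : Real.exp 1 = ∑' k : ℕ, (1 : ℝ) ^ k / (k ! : ℝ) := by
      rw [Real.exp_eq_exp_ℝ, NormedSpace.exp_eq_tsum_div]
    rw [h10]
    exact hs3.tsum_le_tsum (wt_le h1 zero_le_one) (Real.summable_pow_div_factorial 1)
  have h11 : Real.exp (-(m * L)) * ZZ P lam ≤ Real.exp 1 := hZ1.trans hZe
  have h12 : ZZ P lam ≤ Real.exp (m * L + 1) := by
    rw [Real.exp_neg, inv_mul_le_iff₀ (Real.exp_pos _)] at h11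
    rw [Real.exp_add]
    exact h11
  have h13 : Real.log (ZZ P lam) ≤ m * L + 1 := by
    rw [← Real.log_exp (m * L + 1)]
    exact Real.log_le_log (by linarith) h12
  linarith

end Pool.Agent.Helper49.EJ
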