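import Pool.Agent.Helper49.EJ.Asymp

/-!
Growth of the dimension of the spaces of harmonics of degree `(1/√3 - 1/2) d`.
-/

set_option autoImplicit false

open Filter Topology

namespace Pool.Agent.Helper49.EJ

lemma log_fact_lower (m : ℕ) : (m : ℝ) * Real.log m - m ≤ Real.log (m.factorial : ℝ) := by
  rcases Nat.eq_zero_or_pos m with rfl | hm
  · simp
  have hm' : (0 : ℝ) < m := by exact_mod_cast hm
  have h1 := Real.pow_div_factorial_le_exp (x := (m : ℝ)) hm'.le m
  have hf : (0 : ℝ) < m.factorial := by positivity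
  have h2 := Real.log_le_log (by positivity) h1
  rw [Real.log_div (by positivity) hf.ne', Real.log_pow, Real.log_exp] at h2
  linarith

lemma log_fact_upper (m : ℕ) (hm : 1 ≤ m) : Real.log (m.factorial : ℝ) ≤
    1 + Real.log m + ((m : ℝ) * Real.log m - m) := by
  induction m, hm using Nat.le_induction with
  | base => simp
  | succ m hm ih =>
    have hm' : (0 : ℝ) < m := by exact_mod_cast hm
    have hm1 : (0 : ℝ) < (m : ℝ) + 1 := by positivity
    have h1 : Real.log ((m + 1).factorial : ℝ) = Real.log ((m : ℝ) + 1) +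
        Real.log (m.factorial : ℝ) := by
      rw [Nat.factorial_succ]
      push_cast
      rw [Real.log_mul hm1.ne' (by positivity)]
    have h2 : 1 / ((m : ℝ) + 1) ≤ Real.log ((m : ℝ) + 1) - Real.log m := by
      have h3 := Real.one_sub_inv_le_log_of_pos (x := ((m : ℝ) + 1) / m) (by positivity)
      rw [Real.log_div hm1.ne' hm'.ne'] at h3
      refine le_trans (le_of_eq ?_) h3
      field_simp
      ring
    have h4 : 1 ≤ ((m : ℝ) + 1) * (Real.log ((m : ℝ) + 1) - Real.log m) := by
      have := mul_le_mul_of_nonneg_left h2 hm1.le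
      rwa [mul_one_div_cancel hm1.ne'] at this
    rw [h1]
    push_cast
    nlinarith

lemma log_choose_ge {n m : ℕ} (hn : 1 ≤ n) (hm : 1 ≤ m) :
    ((n : ℝ) + m) * Real.log (n + m) - n * Real.log n - m * Real.log m - Real.log n - Real.log m
      - 2 ≤ Real.log ((Nat.choose (n + m) n : ℕ) : ℝ) := by
  have e1 : ((Nat.choose (n + m) n : ℕ) : ℝ) = ((n + m).factorial : ℝ) /
      ((n.factorial : ℝ) * m.factorial) := by
    have h := Nat.choose_mul_factorial_mul_factorial (show n ≤ n + m by omega)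
    rw [Nat.add_sub_cancel_left] at h
    rw [eq_div_iff (by positivity), ← mul_assoc]
    exact_mod_cast h
  rw [e1, Real.log_div (by positivity) (by positivity), Real.log_mul (by positivity)
    (by positivity)]
  have h1 := log_fact_lower (n + m)
  have h2 := log_fact_upper n hn
  have h3 := log_fact_upper m hm
  push_cast at h1
  linarith

/-- the critical degree `κ = 1/√3 - 1/2` -/
noncomputable def kap : ℝ := 1 / Real.sqrt 3 - 1 / 2

lemma sqrt3_bounds : (173 / 100 : ℝ) < Real.sqrt 3 ∧ Real.sqrt 3 < 174 / 100 := by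
  constructor
  · rw [Real.lt_sqrt (by norm_num)]; norm_num
  · rw [Real.sqrt_lt' (by norm_num)]; norm_num

lemma kap_pos : 0 < kap := by
  have ⟨h1, h2⟩ := sqrt3_bounds
  have h0 : (0 : ℝ) < Real.sqrt 3 := by linarith
  unfold kap
  have : 1 / 2 < 1 / Real.sqrt 3 := one_div_lt_one_div_of_lt h0 (by linarith)
  linarith

lemma kap_eq : 6 * kap = 2 * Real.sqrt 3 - 3 := by
  have h3 : Real.sqrt 3 * Real.sqrt 3 = 3 := Real.mul_self_sqrt (by norm_num)
  have h0 : (0 : ℝ) < Real.sqrt 3 := by have := sqrt3_bounds.1; linarith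
  unfold kap
  have : 1 / Real.sqrt 3 = Real.sqrt 3 / 3 := by
    rw [div_eq_div_iff h0.ne' (by norm_num)]; linarith
  rw [this]; ring

/-- the number of degrees used -/
noncomputable def JJ (d : ℕ) : ℕ := ⌊kap * d - 2⌋₊

lemma kap_lt : kap < 1 / 10 := by
  have h := kap_eq
  have := sqrt3_bounds.2
  linarith

lemma JJ_cond {d : ℕ} (hd : 2 ≤ kap * d) :
    (JJ d : ℝ) * ((2 - Real.sqrt 3) ^ 2 - (2 - Real.sqrt 3) + 1) ≤
      (2 - Real.sqrt 3) * d / 2 - (2 - Real.sqrt 3) ^ 2 * (d - 1) - 1 := by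
  have h1 : (JJ d : ℝ) ≤ kap * d - 2 := Nat.floor_le (by linarith)
  have h3 : Real.sqrt 3 * Real.sqrt 3 = 3 := Real.mul_self_sqrt (by norm_num)
  have ⟨hb1, hb2⟩ := sqrt3_bounds
  set s := Real.sqrt 3 with hs
  have e1 : (2 - s) ^ 2 - (2 - s) + 1 = 6 - 3 * s := by nlinarith
  have e2 : (2 - s) ^ 2 = 7 - 4 * s := by nlinarith
  rw [e1, e2]
  have h4 : 0 < 6 - 3 * s := by linarith
  have h5 : (JJ d : ℝ) * (6 - 3 * s) ≤ (kap * d - 2) * (6 - 3 * s) :=
    mul_le_mul_of_nonneg_right h1 h4.le
  have h6 : kap * (6 - 3 * s) = (7 / 2) * s - 6 := by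
    have h7 : kap = (2 * s - 3) / 6 := by have := kap_eq; linarith
    rw [h7]; nlinarith
  have h8 : (kap * d - 2) * (6 - 3 * s) = ((7 / 2) * s - 6) * d - 2 * (6 - 3 * s) := by
    have : (kap * d - 2) * (6 - 3 * s) = (kap * (6 - 3 * s)) * d - 2 * (6 - 3 * s) := by ring
    rw [this, h6]
  rw [h8] at h5
  nlinarith

/-- the exponential growth rate (natural logarithm) of the dimension -/
noncomputable def En : ℝ := (kap + 1) * Real.log (kap + 1) - kap * Real.log kap

lemma tendsto_nd : Tendsto (fun d : ℕ => ((JJ d + 1 : ℕ) : ℝ) / d) atTop (𝓝 kap) := by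
  have h1 : Tendsto (fun d : ℕ => (2 : ℝ) / d) atTop (𝓝 0) := tendsto_const_div_atTop_nhds_zero_nat 2
  have hlow : Tendsto (fun d : ℕ => kap - 2 / (d : ℝ)) atTop (𝓝 kap) := by
    simpa using (tendsto_const_nhds (x := kap)).sub h1
  have hup : Tendsto (fun d : ℕ => kap + 2 / (d : ℝ)) atTop (𝓝 kap) := by
    simpa using (tendsto_const_nhds (x := kap)).add h1
  refine tendsto_of_tendsto_of_tendsto_of_le_of_le' hlow hup ?_ ?_
  · filter_upwards [eventually_ge_atTop 1] with d hd
    have hd' : (0 : ℝ) < d := by exact_mod_cast hd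
    have h2 : kap * d - 2 < (JJ d : ℝ) + 1 := Nat.lt_floor_add_one _
    rw [le_div_iff₀ hd']
    push_cast
    have : (kap - 2 / (d : ℝ)) * d = kap * d - 2 := by field_simp
    linarith
  · filter_upwards [eventually_ge_atTop 1] with d hd
    have hd' : (0 : ℝ) < d := by exact_mod_cast hd
    have h2 : (JJ d : ℝ) ≤ kap * d := by
      unfold JJ
      by_cases h : 0 ≤ kap * d - 2
      · have := Nat.floor_le h; linarith
      · push Not at h
        rw [Nat.floor_of_nonpos h.le]
        have := kap_pos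
        push_cast
        positivity
    rw [div_le_iff₀ hd']
    push_cast
    have : (kap + 2 / (d : ℝ)) * d = kap * d + 2 := by field_simp
    linarith

lemma tendsto_md : Tendsto (fun d : ℕ => ((d - 3 : ℕ) : ℝ) / d) atTop (𝓝 1) := by
  have h1 : Tendsto (fun d : ℕ => (3 : ℝ) / d) atTop (𝓝 0) := tendsto_const_div_atTop_nhds_zero_nat 3
  have h2 : Tendsto (fun d : ℕ => 1 - 3 / (d : ℝ)) atTop (𝓝 1) := by
    simpa using (tendsto_const_nhds (x := (1 : ℝ))).sub h1
  refine h2.congr' ?_
  filter_upwards [eventually_ge_atTop 3] with d hd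
  have hd' : (3 : ℝ) ≤ d := by exact_mod_cast hd
  rw [Nat.cast_sub hd]
  push_cast
  field_simp

lemma tendsto_logd : Tendsto (fun d : ℕ => (2 * Real.log d + 2) / (d : ℝ)) atTop (𝓝 0) := by
  have h1 : Tendsto (fun x : ℝ => Real.log x / x) atTop (𝓝 0) := by
    have := Real.isLittleO_log_id_atTop
    rw [Asymptotics.isLittleO_iff_tendsto'] at this
    · exact this
    · filter_upwards [eventually_gt_atTop 0] with x hx h0
      exact absurd h0 hx.ne'
  have h2 : Tendsto (fun d : ℕ => Real.log d / (d : ℝ)) atTop (𝓝 0) :=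
    h1.comp tendsto_natCast_atTop_atTop
  have h3 : Tendsto (fun d : ℕ => (2 : ℝ) / d) atTop (𝓝 0) := tendsto_const_div_atTop_nhds_zero_nat 2
  have h4 := (h2.const_mul 2).add h3
  simp only [mul_zero, add_zero] at h4
  refine h4.congr fun d => ?_
  ring

/-- growth of the dimension -/
theorem choose_growth {δ : ℝ} (hδ : 0 < δ) : ∀ᶠ d : ℕ in atTop,
    (En - δ) * d ≤ Real.log ((Nat.choose (JJ d + 1 + (d - 3)) (JJ d + 1) : ℕ) : ℝ) := by
  set H : ℝ × ℝ → ℝ := fun p => (p.1 + p.2) * Real.log (p.1 + p.2) - p.1 * Real.log p.1 -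
    p.2 * Real.log p.2 with hH
  have hHc : Continuous H := by
    have h := Real.continuous_mul_log
    have h1 : Continuous fun p : ℝ × ℝ => (p.1 + p.2) * Real.log (p.1 + p.2) :=
      h.comp (continuous_fst.add continuous_snd)
    exact (h1.sub (h.comp continuous_fst)).sub (h.comp continuous_snd)
  have hH1 : H (kap, 1) = En := by simp [hH, En]
  have ht : Tendsto (fun d : ℕ => H (((JJ d + 1 : ℕ) : ℝ) / d, ((d - 3 : ℕ) : ℝ) / d) -
      (2 * Real.log d + 2) / (d : ℝ)) atTop (𝓝 En) := by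
    have h := (hHc.tendsto (kap, 1)).comp (tendsto_nd.prodMk_nhds tendsto_md)
    rw [hH1] at h
    simpa using h.sub tendsto_logd
  have hev := ht.eventually_const_lt (show En - δ < En by linarith)
  filter_upwards [hev, eventually_ge_atTop 4] with d hd hd4
  have hd' : (4 : ℝ) ≤ d := by exact_mod_cast hd4
  have hd0 : (0 : ℝ) < d := by linarith
  set n := JJ d + 1 with hn
  set m := d - 3 with hm
  have hn1 : 1 ≤ n := by omega
  have hm1 : 1 ≤ m := by omega
  have hn0 : (0 : ℝ) < n := by exact_mod_cast hn1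
  have hm0 : (0 : ℝ) < m := by exact_mod_cast hm1
  have hnd : (n : ℝ) ≤ d := by
    have h1 : (JJ d : ℝ) ≤ kap * d := by
      unfold JJ
      by_cases h : 0 ≤ kap * d - 2
      · have := Nat.floor_le h; linarith
      · push Not at h
        rw [Nat.floor_of_nonpos h.le]
        have := kap_pos
        push_cast
        positivity
    have h2 := kap_lt
    rw [hn]
    push_cast
    nlinarith
  have hmd : (m : ℝ) ≤ d := by
    rw [hm]; exact_mod_cast Nat.sub_le d 3
  have h1 := log_choose_ge hn1 hm1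
  have h2 : (d : ℝ) * H ((n : ℝ) / d, (m : ℝ) / d) =
      ((n : ℝ) + m) * Real.log (n + m) - n * Real.log n - m * Real.log m := by
    simp only [hH]
    rw [← add_div, Real.log_div (by positivity) hd0.ne', Real.log_div hn0.ne' hd0.ne',
      Real.log_div hm0.ne' hd0.ne']
    field_simp
    ring
  have h3 : (En - δ) * d < (d : ℝ) * (H ((n : ℝ) / d, (m : ℝ) / d) - (2 * Real.log d + 2) / (d : ℝ)) := by
    rw [mul_comm]
    exact mul_lt_mul_of_pos_left hd hd0
  have h4 : (d : ℝ) * (H ((n : ℝ) / d, (m : ℝ) / d) - (2 * Real.log d + 2) / (d : ℝ)) =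
      d * H ((n : ℝ) / d, (m : ℝ) / d) - (2 * Real.log d + 2) := by
    field_simp
  have h5 : Real.log n ≤ Real.log d := Real.log_le_log hn0 hnd
  have h6 : Real.log m ≤ Real.log d := Real.log_le_log hm0 hmd
  rw [h4, h2] at h3
  linarith

end Pool.Agent.Helper49.EJ
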