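import Pool.Agent.Helper49.EJ.Final
import Pool.Agent.Helper49.EJ.Gibbs

/-!
The mean number of balls in the hard-core model.
-/

set_option autoImplicit false

open MeasureTheory Metric
open scoped Nat

namespace Pool.Agent.Helper49.EJ

open Pool.Agent.Helper47.KP

/-- the probability that `k` random balls do not overlap -/
noncomputable def kp (d k : ℕ) : ℝ := (Measure.pi fun _ : Fin k => sig d).real (Kiss d k)

lemma kp_nonneg (d k : ℕ) : 0 ≤ kp d k := measureReal_nonneg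

lemma kp_le_one (d : ℕ) [NeZero d] (k : ℕ) : kp d k ≤ 1 := measureReal_le_one

lemma kp_zero (d : ℕ) [NeZero d] : kp d 0 = 1 := by
  have : Kiss d 0 = Set.univ := Set.eq_univ_of_forall fun x i => i.elim0
  unfold kp
  rw [this]
  simp

lemma two_rpow_W (d : ℕ) :
    (2 : ℝ) ^ (Real.logb 2 (2 / Real.sqrt 3) * d) = (2 / Real.sqrt 3) ^ d := by
  rw [Real.rpow_mul (by norm_num), Real.rpow_logb (by norm_num) (by norm_num)
    (by positivity), Real.rpow_natCast]

lemma one_le_ratio : 1 ≤ 2 / Real.sqrt 3 := by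
  have hs30 : 0 < Real.sqrt 3 := Real.sqrt_pos.2 (by norm_num)
  rw [le_div_iff₀ hs30]
  have := sqrt3_bounds.2
  linarith

lemma W_pos : 0 < Real.logb 2 (2 / Real.sqrt 3) := by
  apply Real.logb_pos (by norm_num)
  have hs30 : 0 < Real.sqrt 3 := Real.sqrt_pos.2 (by norm_num)
  rw [lt_div_iff₀ hs30]
  have := sqrt3_bounds.2
  linarith

lemma ratio_le_ord {d : ℕ} (hd : 1 ≤ d) : (2 / Real.sqrt 3) ^ d ≤ ord d := by
  unfold ord
  exact le_mul_of_one_le_left (by positivity)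
    (Real.one_le_rpow (by exact_mod_cast hd) (by norm_num))

lemma self_le_ord {d : ℕ} (hd : 1 ≤ d) : (d : ℝ) ≤ ord d := by
  have hd' : (1 : ℝ) ≤ d := by exact_mod_cast hd
  unfold ord
  have h1 : (d : ℝ) ≤ (d : ℝ) ^ (3 / 2 : ℝ) := by
    conv_lhs => rw [← Real.rpow_one (d : ℝ)]
    exact Real.rpow_le_rpow_of_exponent_le hd' (by norm_num)
  exact h1.trans (le_mul_of_one_le_right (by positivity) (one_le_pow₀ one_le_ratio))

/-- **Upper bound for the hard-core model.** -/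
theorem hc_upper {s : ℝ} (hs : s < Real.logb 2 (2 / Real.sqrt 3) + gst) : ∃ C : ℝ, 0 < C ∧
    ∃ d₀ : ℕ, ∀ d : ℕ, d₀ ≤ d → ∀ lam : ℝ, 0 ≤ lam → lam ≤ 2 ^ (s * d) →
      mn (kp d) lam ≤ C * ord d := by
  set W : ℝ := Real.logb 2 (2 / Real.sqrt 3) with hW
  obtain ⟨C0, hC0, d1, hmain⟩ := main_bound (g := s - W) (by linarith)
  set C : ℝ := max C0 (4 * Real.exp 1) with hC
  have hCe : 4 * Real.exp 1 ≤ C := le_max_right _ _
  have hC1 : 0 < C := lt_of_lt_of_le hC0 (le_max_left _ _)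
  refine ⟨C + 2, by linarith, max d1 1, fun d hd lam hl0 hl => ?_⟩
  have hd1 : d1 ≤ d := (le_max_left _ _).trans hd
  have hd2 : 1 ≤ d := (le_max_right _ _).trans hd
  have : NeZero d := ⟨by omega⟩
  have hF1 : 1 ≤ ord d := by
    have h1 : (1 : ℝ) ≤ d := by exact_mod_cast hd2
    exact h1.trans (self_le_ord hd2)
  set q : ℝ := 2 ^ (-((s - W) * d)) with hq
  have hq0 : 0 < q := Real.rpow_pos_of_pos (by norm_num) _
  have hlq : lam * q ≤ ord d := by
    calc lam * q ≤ 2 ^ (s * d) * q := mul_le_mul_of_nonneg_right hl hq0.le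
      _ = 2 ^ (W * d) := by
          rw [hq, ← Real.rpow_add (by norm_num)]; congr 1; ring
      _ = (2 / Real.sqrt 3) ^ d := two_rpow_W d
      _ ≤ ord d := ratio_le_ord hd2
  have hK : 4 * Real.exp 1 * (lam * q) ≤ C * ord d := by
    apply mul_le_mul hCe hlq (mul_nonneg hl0 hq0.le) hC1.le
  have hPq : ∀ k : ℕ, C * ord d ≤ k → kp d k ≤ q ^ k := by
    intro k hk
    have h1 : C0 * (d : ℝ) ^ (3 / 2 : ℝ) * (2 / Real.sqrt 3) ^ d ≤ k := by
      refine le_trans ?_ hk
      rw [mul_assoc]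
      have h2 : (0 : ℝ) ≤ ord d := by linarith
      exact mul_le_mul_of_nonneg_right (le_max_left _ _) h2
    refine (hmain d hd1 k h1).trans (le_of_eq ?_)
    rw [hq, ← Real.rpow_natCast, ← Real.rpow_mul (by norm_num)]
    congr 1; ring
  have h := mn_upper (kp_nonneg d) (kp_le_one d) (kp_zero d) hl0 hq0.le hK hPq
  nlinarith

/-- **Lower bound for the hard-core model.** -/
theorem hc_lower {s : ℝ} (hs : Real.logb 2 (2 / Real.sqrt 3) < s) : ∃ c : ℝ, 0 < c ∧
    ∃ d₀ : ℕ, ∀ d : ℕ, d₀ ≤ d → ∀ lam : ℝ, 2 ^ (s * d) ≤ lam →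
      c * ord d ≤ mn (kp d) lam := by
  classical
  have hl2 : 0 < Real.log 2 := Real.log_pos (by norm_num)
  set W : ℝ := Real.logb 2 (2 / Real.sqrt 3) with hW
  have hW0 : 0 < W := W_pos
  set s₀ : ℝ := (W + s) / 2 with hs₀
  have h0 : W < s₀ := by rw [hs₀]; linarith
  have h0s : s₀ < s := by rw [hs₀]; linarith
  have hs0 : 0 < s := by linarith
  have hs00 : 0 < s₀ := by linarith
  obtain ⟨c, hc, δ, hδ, d1, hd1⟩ := Pool.Agent.Helper84.RK.lower (s := s₀) h0
  set θ : ℝ := (s - s₀) / (2 * s) with hθ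
  have hθ0 : 0 < θ := by rw [hθ]; apply div_pos <;> linarith
  have hθ1 : θ ≤ 1 := by rw [hθ, div_le_one (by linarith)]; linarith
  refine ⟨θ * c / 2, by positivity, max (max d1 1) (⌈1 / δ⌉₊ + ⌈2 / (s - s₀)⌉₊ +
    ⌈1 / (s * Real.log 2)⌉₊ + ⌈4 / (θ * c)⌉₊), fun d hd lam hlam => ?_⟩
  have hdd1 : d1 ≤ d := (le_max_left _ _).trans ((le_max_left _ _).trans hd)
  have hdd2 : 1 ≤ d := (le_max_right _ _).trans ((le_max_left _ _).trans hd)
  have hdd := (le_max_right _ _).trans hd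
  have : NeZero d := ⟨by omega⟩
  have hd0 : (0 : ℝ) < d := by exact_mod_cast (by omega : 0 < d)
  have hb1 : 1 ≤ δ * d := by
    have : 1 / δ ≤ d := (Nat.le_ceil _).trans (by exact_mod_cast (by omega : ⌈1 / δ⌉₊ ≤ d))
    rw [div_le_iff₀ hδ] at this
    linarith
  have hb2 : 2 ≤ (s - s₀) * d := by
    have : 2 / (s - s₀) ≤ d :=
      (Nat.le_ceil _).trans (by exact_mod_cast (by omega : ⌈2 / (s - s₀)⌉₊ ≤ d))
    rw [div_le_iff₀ (by linarith)] at this
    linarith
  have hb3 : 1 ≤ s * Real.log 2 * d := by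
    have : 1 / (s * Real.log 2) ≤ d :=
      (Nat.le_ceil _).trans (by exact_mod_cast (by omega : ⌈1 / (s * Real.log 2)⌉₊ ≤ d))
    rw [div_le_iff₀ (by positivity)] at this
    linarith
  have hb4 : 4 ≤ θ * c * ord d := by
    have h1 : 4 / (θ * c) ≤ d :=
      (Nat.le_ceil _).trans (by exact_mod_cast (by omega : ⌈4 / (θ * c)⌉₊ ≤ d))
    have h2 := h1.trans (self_le_ord hdd2)
    rw [div_le_iff₀ (by positivity)] at h2
    linarith
  set n : ℕ := ⌈(2 : ℝ) ^ (s₀ * d)⌉₊ with hn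
  have hn1 : (2 : ℝ) ^ (s₀ * d) ≤ n := Nat.le_ceil _
  have hp1 : (1 : ℝ) ≤ 2 ^ (s₀ * d) := Real.one_le_rpow (by norm_num) (by positivity)
  have hn2 : (n : ℝ) ≤ 2 * 2 ^ (s₀ * d) := by
    have := Nat.ceil_lt_add_one (show (0 : ℝ) ≤ 2 ^ (s₀ * d) by positivity)
    rw [← hn] at this
    linarith
  have hn0 : (0 : ℝ) < n := by linarith
  set k : ℕ := ⌈c * ord d⌉₊ with hk
  have hk1 : c * ord d ≤ k := Nat.le_ceil _
  -- the probability bound
  have hhalf : 1 / 2 ≤ (n.choose k : ℝ) * kp d k := by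
    set μ := Measure.pi fun _ : Fin n => sig d with hμ
    have h1 := hd1 d hdd1 n hn1
    have h2 : (2 : ℝ) ^ (-(δ * d)) ≤ 1 / 2 := by
      calc (2 : ℝ) ^ (-(δ * d)) ≤ 2 ^ (-1 : ℝ) :=
            Real.rpow_le_rpow_of_exponent_le (by norm_num) (by linarith)
        _ = 1 / 2 := by rw [Real.rpow_neg_one]; norm_num
    have h3 : (1 : ℝ) ≤ μ.real {x | ∃ I, Kis x I ∧ k ≤ I.card} +
        μ.real {x | ¬ ∃ I : Finset (Fin n), Pool.Agent.Helper84.RK.Kis x I ∧
          c * ((d : ℝ) ^ (3 / 2 : ℝ) * (2 / Real.sqrt 3) ^ d) ≤ I.card} := by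
      refine le_trans ?_ (measureReal_union_le _ _)
      have h4 : {x : Fin n → Sph d | ∃ I, Kis x I ∧ k ≤ I.card} ∪
          {x | ¬ ∃ I : Finset (Fin n), Pool.Agent.Helper84.RK.Kis x I ∧
          c * ((d : ℝ) ^ (3 / 2 : ℝ) * (2 / Real.sqrt 3) ^ d) ≤ I.card} = Set.univ := by
        apply Set.eq_univ_of_forall
        intro x
        by_cases h5 : ∃ I : Finset (Fin n), Pool.Agent.Helper84.RK.Kis x I ∧
          c * ((d : ℝ) ^ (3 / 2 : ℝ) * (2 / Real.sqrt 3) ^ d) ≤ I.card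
        · left
          obtain ⟨I, hI, hI2⟩ := h5
          exact ⟨I, hI, Nat.ceil_le.2 hI2⟩
        · right
          exact h5
      rw [h4]
      simp
    have h6 := union_bound (d := d) (n := n) (k := k)
    rw [← hμ] at h6
    unfold kp
    linarith
  have hwt : (lam / n) ^ k / 2 ≤ wt (kp d) lam k := by
    have h1 : (n.choose k : ℝ) ≤ (n : ℝ) ^ k / (k.factorial : ℝ) := Nat.choose_le_pow_div k n
    have h2 : 1 / 2 ≤ (n : ℝ) ^ k / (k.factorial : ℝ) * kp d k :=
      hhalf.trans (mul_le_mul_of_nonneg_right h1 (kp_nonneg d k))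
    have hl0 : 0 < lam := lt_of_lt_of_le (by positivity) hlam
    unfold wt
    calc (lam / n) ^ k / 2 = (lam / n) ^ k * (1 / 2) := by ring
      _ ≤ (lam / n) ^ k * ((n : ℝ) ^ k / (k.factorial : ℝ) * kp d k) :=
          mul_le_mul_of_nonneg_left h2 (by positivity)
      _ = lam ^ k / (k ! : ℝ) * kp d k := by
          rw [div_pow]; field_simp
  have hlam0 : 0 < lam := lt_of_lt_of_le (by positivity) hlam
  set L := Real.log lam with hL
  have hLs : s * Real.log 2 * d ≤ L := by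
    rw [hL, Real.le_log_iff_exp_le hlam0]
    refine le_trans (le_of_eq ?_) hlam
    rw [Real.rpow_def_of_pos (by norm_num)]
    congr 1; ring
  have hL1 : 1 ≤ L := hb3.trans hLs
  have hlam1 : 1 ≤ lam := by
    refine le_trans ?_ hlam
    exact Real.one_le_rpow (by norm_num) (by positivity)
  have hlogn : Real.log n ≤ s₀ * d * Real.log 2 + Real.log 2 := by
    have h1 : Real.log n ≤ Real.log (2 * 2 ^ (s₀ * d)) := Real.log_le_log hn0 hn2
    rw [Real.log_mul (by norm_num) (by positivity), Real.log_rpow (by norm_num)] at h1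
    linarith
  have hratio : θ * L ≤ Real.log (lam / n) := by
    rw [Real.log_div hlam0.ne' hn0.ne']
    have h1 : (1 - θ) * (s * Real.log 2 * d) ≤ (1 - θ) * L :=
      mul_le_mul_of_nonneg_left hLs (by linarith)
    have h2 : (1 - θ) * (s * Real.log 2 * d) = s₀ * d * Real.log 2 +
        (s - s₀) * d / 2 * Real.log 2 := by
      rw [hθ]; field_simp; ring
    nlinarith
  have hZ : (k : ℝ) * (θ * L) - 1 ≤ Real.log (ZZ (kp d) lam) := by
    have h1 := wt_le_ZZ (kp_nonneg d) (kp_le_one d) hlam0.le k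
    have h2 : 0 < (lam / n) ^ k / 2 := by positivity
    have h3 : Real.log ((lam / n) ^ k / 2) ≤ Real.log (ZZ (kp d) lam) :=
      Real.log_le_log h2 (hwt.trans h1)
    rw [Real.log_div (by positivity) (by norm_num), Real.log_pow] at h3
    have h4 : (k : ℝ) * (θ * L) ≤ k * Real.log (lam / n) :=
      mul_le_mul_of_nonneg_left hratio (Nat.cast_nonneg k)
    have h5 := Real.log_two_lt_d9
    linarith
  have hm := mn_lower (kp_nonneg d) (kp_le_one d) (kp_zero d) hlam1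
  rw [← hL] at hm
  set m := mn (kp d) lam with hmdef
  have h6 : (k : ℝ) * θ * L - 2 ≤ m * L := by linarith
  have h7 : (k : ℝ) * θ - 2 ≤ m := by
    by_contra hcon
    push Not at hcon
    have h8 : m * L < ((k : ℝ) * θ - 2) * L := mul_lt_mul_of_pos_right hcon (by linarith)
    nlinarith
  have h9 : θ * (c * ord d) ≤ (k : ℝ) * θ := by nlinarith
  nlinarith

/-- the probability that `k` closed unit balls which touch the unit ball around the origin, in
independent uniformly random directions, have pairwise disjoint interiors -/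
noncomputable def prob (d k : ℕ) : ℝ :=
  (Measure.pi fun _ : Fin k => sig d).real {x | ∀ i j, i ≠ j →
    Disjoint (ball ((2 : ℝ) • (x i : EE d)) 1) (ball ((2 : ℝ) • (x j : EE d)) 1)}

/-- the mean number of balls in the hard-core model of fugacity `lam`: the configurations of `k`
balls have the weight `lam ^ k / k! * prob d k` -/
noncomputable def hardCore (d : ℕ) (lam : ℝ) : ℝ :=
  (∑' k : ℕ, (k : ℝ) * (lam ^ k / (k ! : ℝ) * prob d k)) /
    ∑' k : ℕ, lam ^ k / (k ! : ℝ) * prob d k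

lemma prob_eq (d k : ℕ) : prob d k = kp d k := by
  unfold prob kp Kiss
  simp only [disjoint_iff]

lemma hardCore_eq (d : ℕ) (lam : ℝ) : hardCore d lam = mn (kp d) lam := by
  unfold hardCore mn ZZ wt
  simp only [prob_eq]

/-- **The hard-core model** of Jenssen, Joos and Perkins: for fugacities between `2^(s₁ d)` and
`2^(s₂ d)` the mean number of balls has the order `d^(3/2) (2/√3)^d`. -/
theorem hard_core {s₁ s₂ : ℝ} (h1 : Real.logb 2 (2 / Real.sqrt 3) < s₁)
    (h2 : s₂ < Real.logb 2 (2 + Real.sqrt 3) / Real.sqrt 3 - Real.logb 2 3 / 2) :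
    ∃ c C : ℝ, 0 < c ∧ 0 < C ∧ ∃ d₀ : ℕ, ∀ d : ℕ, d₀ ≤ d → ∀ lam : ℝ,
      2 ^ (s₁ * d) ≤ lam → lam ≤ 2 ^ (s₂ * d) →
      c * ((d : ℝ) ^ (3 / 2 : ℝ) * (2 / Real.sqrt 3) ^ d) ≤ hardCore d lam ∧
        hardCore d lam ≤ C * ((d : ℝ) ^ (3 / 2 : ℝ) * (2 / Real.sqrt 3) ^ d) := by
  rw [← threshold_eq] at h2
  obtain ⟨C, hC, d₁, hu⟩ := hc_upper h2
  obtain ⟨c, hc, d₂, hl⟩ := hc_lower h1
  refine ⟨c, C, hc, hC, max d₁ d₂, fun d hd lam hlam1 hlam2 => ?_⟩
  rw [hardCore_eq]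
  have hlam0 : 0 ≤ lam := le_trans (by positivity) hlam1
  exact ⟨hl d ((le_max_right _ _).trans hd) lam hlam1,
    hu d ((le_max_left _ _).trans hd) lam hlam0 hlam2⟩

end Pool.Agent.Helper49.EJ
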