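import Pool.Agent.Helper49.EJ.Growth

/-!
The probability that `k` random balls touching the central ball do not overlap.
-/

set_option autoImplicit false

open MeasureTheory Set Filter Topology

namespace Pool.Agent.Helper49.EJ

open Pool.Agent.Helper47.KP

/-- `log_2 (2 + √3) / √3 - 1 = 0.0969...` -/
noncomputable def gst : ℝ := Real.logb 2 (2 + Real.sqrt 3) / Real.sqrt 3 - 1

lemma En_eq : En - Real.log (2 / Real.sqrt 3) = 2 * gst * Real.log 2 := by
  have h3 : Real.sqrt 3 * Real.sqrt 3 = 3 := Real.mul_self_sqrt (by norm_num)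
  have ⟨hb1, hb2⟩ := sqrt3_bounds
  have h0 : (0 : ℝ) < Real.sqrt 3 := by linarith
  have hl2 : Real.log 2 ≠ 0 := (Real.log_pos (by norm_num)).ne'
  set s := Real.sqrt 3 with hs
  have e1 : kap + 1 = (2 + s) / (2 * s) := by unfold kap; rw [← hs]; field_simp; ring
  have e2 : kap = (2 - s) / (2 * s) := by unfold kap; rw [← hs]; field_simp
  have e3 : Real.log (2 - s) = -Real.log (2 + s) := by
    rw [← Real.log_inv]
    congr 1
    apply eq_inv_of_mul_eq_one_left
    nlinarith
  have l1 : Real.log (kap + 1) = Real.log (2 + s) - Real.log (2 * s) := by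
    rw [e1, Real.log_div (by linarith) (by linarith)]
  have l2 : Real.log kap = -Real.log (2 + s) - Real.log (2 * s) := by
    rw [e2, Real.log_div (by linarith) (by linarith), e3]
  have e4 : 2 * kap + 1 = 2 / s := by unfold kap; rw [← hs]; field_simp; ring
  unfold En gst Real.logb
  rw [l1, l2, Real.log_div (by norm_num) h0.ne', Real.log_mul (by norm_num) h0.ne', ← hs]
  have e5 : (kap + 1) * (Real.log (2 + s) - (Real.log 2 + Real.log s)) -
      kap * (-Real.log (2 + s) - (Real.log 2 + Real.log s)) - (Real.log 2 - Real.log s) =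
      (2 * kap + 1) * Real.log (2 + s) - 2 * Real.log 2 := by ring
  rw [e5, e4]
  field_simp

/-- eventually every set of measure at least `2^(-g d)` contains many conflicts -/
theorem supersat_eventually {g : ℝ} (hg : g < gst) : ∀ᶠ d : ℕ in atTop, 4 ≤ d ∧
    ∀ _ : NeZero d, Supersat (sig d) (Rc (d := d)) (pc d) ((2 : ℝ) ^ (-(g * d))) := by
  have hl2 : 0 < Real.log 2 := Real.log_pos (by norm_num)
  have hδ : 0 < (gst - g) * Real.log 2 := mul_pos (by linarith) hl2
  have hev : ∀ᶠ d : ℕ in atTop, (1 / 2) * Real.log d + Real.log 160 ≤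
      (gst - g) * Real.log 2 * d := by
    have h1 : Tendsto (fun d : ℕ => (2 * Real.log d + 2) / (d : ℝ)) atTop (𝓝 0) := tendsto_logd
    have h2 : Tendsto (fun d : ℕ => Real.log 160 / (d : ℝ)) atTop (𝓝 0) :=
      tendsto_const_div_atTop_nhds_zero_nat _
    have h3 := (h1.add h2).eventually_lt_const (show 0 + 0 < (gst - g) * Real.log 2 by simpa using hδ)
    filter_upwards [h3, eventually_ge_atTop 1] with d hd hd1
    have hd0 : (0 : ℝ) < d := by exact_mod_cast hd1
    have hlog : 0 ≤ Real.log d := Real.log_natCast_nonneg d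
    rw [← add_div, div_lt_iff₀ hd0] at hd
    linarith
  have hk : ∀ᶠ d : ℕ in atTop, 2 ≤ kap * d := by
    have := (tendsto_natCast_atTop_atTop (R := ℝ)).const_mul_atTop kap_pos
    exact this.eventually_ge_atTop 2
  filter_upwards [hev, choose_growth hδ, hk, eventually_ge_atTop 4] with d h1 h2 h3 h4
  refine ⟨h4, fun hne => ?_⟩
  have hd0 : (0 : ℝ) < d := by exact_mod_cast (by omega : 0 < d)
  have hp := pc_pos h4
  have ⟨hb1, hb2⟩ := sqrt3_bounds
  set a : ℝ := (2 : ℝ) ^ (-(g * d)) with ha
  have ha0 : 0 < a := Real.rpow_pos_of_pos (by norm_num) _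
  set ch : ℝ := ((Nat.choose (JJ d + 1 + (d - 3)) (JJ d + 1) : ℕ) : ℝ) with hch
  have hch0 : 0 < ch := by rw [hch]; exact_mod_cast Nat.choose_pos (by omega)
  refine supersat (by omega) hp (r := 2 - Real.sqrt 3) (by linarith) (by linarith)
    (JJ_cond h3) (ε := a / 2) (by positivity) ?_ (by linarith)
  rw [div_le_iff₀ (mul_pos hp hch0)]
  have hpl : Real.log (1 / 40) + d * Real.log (Real.sqrt 3 / 2) - 1 / 2 * Real.log d ≤
      Real.log (pc d) := by
    have h5 := Real.log_le_log (by have := s32_pos; positivity) (pc_ge h4)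
    rw [Real.log_div (by have := s32_pos; positivity) (Real.sqrt_pos.2 hd0).ne',
      Real.log_mul (by norm_num) (by have := s32_pos; positivity), Real.log_pow,
      Real.log_sqrt hd0.le] at h5
    linarith
  have h6 : Real.log (Real.sqrt 3 / 2) = -Real.log (2 / Real.sqrt 3) := by
    rw [← Real.log_inv, inv_div]
  have h7 : Real.log (1 / 40) = -Real.log 40 := by rw [one_div, Real.log_inv]
  have h8 : Real.log 160 = Real.log 40 + 2 * Real.log 2 := by
    rw [show (160 : ℝ) = 40 * 2 ^ 2 by norm_num, Real.log_mul (by norm_num) (by norm_num),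
      Real.log_pow]; push_cast; ring
  have h9 : Real.log ((a / 2) ^ 2) = -2 * g * d * Real.log 2 - 2 * Real.log 2 := by
    rw [Real.log_pow, Real.log_div ha0.ne' (by norm_num), ha, Real.log_rpow (by norm_num)]
    push_cast; ring
  have hE := En_eq
  have h10 : 0 ≤ Real.log ((a / 2) ^ 2 * (pc d * ch)) := by
    rw [Real.log_mul (by positivity) (by positivity), Real.log_mul hp.ne' hch0.ne', h9]
    have h11 : (En - (gst - g) * Real.log 2) * d - d * Real.log (2 / Real.sqrt 3) =
        (2 * gst * Real.log 2 - (gst - g) * Real.log 2) * d := by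
      rw [← hE]; ring
    rw [h6, h7] at hpl
    nlinarith
  exact (Real.log_nonneg_iff (by positivity)).1 h10

/-- the set of kissing `k`-tuples -/
def Kiss (d k : ℕ) : Set (Fin k → Sph d) :=
  {x | ∀ i j, i ≠ j → inner ℝ (x i : EE d) (x j) ≤ 1 / 2}

lemma Kiss_eq (d k : ℕ) : Kiss d k = {x | ∀ i j, i ≠ j → ¬ Rc (x i) (x j)} := by
  ext x
  simp [Kiss, Rc, not_lt]

lemma log_le_eta {η y : ℝ} (hη : 0 < η) (hy : 0 < y) :
    Real.log y ≤ η * y + (-1 - Real.log η) := by
  have h := Real.log_le_sub_one_of_pos (mul_pos hη hy)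
  rw [Real.log_mul hη.ne' hy.ne'] at h
  linarith

set_option maxHeartbeats 2000000 in
/-- main estimate -/
theorem main_bound {g : ℝ} (hg : g < gst) : ∃ C : ℝ, 0 < C ∧ ∃ d₀ : ℕ, ∀ d : ℕ, d₀ ≤ d →
    ∀ k : ℕ, C * (d : ℝ) ^ (3 / 2 : ℝ) * (2 / Real.sqrt 3) ^ d ≤ k →
    (Measure.pi fun _ : Fin k => sig d).real (Kiss d k) ≤ (2 : ℝ) ^ (-(g * d * k)) := by
  have hl2 : 0 < Real.log 2 := Real.log_pos (by norm_num)
  set g1 : ℝ := max g 0 with hg1
  by_cases hgs : gst ≤ 0
  · -- trivial case
    refine ⟨1, one_pos, 1, fun d hd k _ => ?_⟩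
    have : NeZero d := ⟨by omega⟩
    refine measureReal_le_one.trans ?_
    apply Real.one_le_rpow (by norm_num)
    have h1 : g ≤ 0 := by linarith
    have : g * d * k ≤ 0 := by
      have h2 : g * d ≤ 0 := mul_nonpos_of_nonpos_of_nonneg h1 (Nat.cast_nonneg d)
      exact mul_nonpos_of_nonpos_of_nonneg h2 (Nat.cast_nonneg k)
    linarith
  · push Not at hgs
    have hg1l : g1 < gst := max_lt hg hgs
    have hg10 : 0 ≤ g1 := le_max_right _ _
    set g2 : ℝ := (g1 + gst) / 2 with hg2
    have hg2l : g2 < gst := by rw [hg2]; linarith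
    have hg20 : 0 < g2 := by rw [hg2]; linarith
    have hg12 : g1 < g2 := by rw [hg2]; linarith
    obtain ⟨d₁, hd₁⟩ := eventually_atTop.1 (supersat_eventually hg2l)
    set θ : ℝ := (g2 - g1) * Real.log 2 with hθ
    have hθ0 : 0 < θ := mul_pos (by linarith) hl2
    set c1 : ℝ := 4 * g2 + 1 with hc1
    have hc10 : 0 < c1 := by positivity
    set η : ℝ := θ / (2 * c1) with hη
    have hη0 : 0 < η := by positivity
    set K : ℝ := |(-1 - Real.log η)| + 4 + g2 with hK
    have hK0 : 0 < K := by positivity
    refine ⟨80 * (c1 * (K + 3) + 1) / θ + 80 * c1, by positivity, max d₁ 4, fun d hd k hk => ?_⟩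
    obtain ⟨hd4, hS⟩ := hd₁ d ((le_max_left _ _).trans hd)
    have : NeZero d := ⟨by omega⟩
    have hd' : (4 : ℝ) ≤ d := by exact_mod_cast hd4
    have hd0 : (0 : ℝ) < d := by linarith
    have hp := pc_pos hd4
    have hp1 : pc d ≤ 1 := pc_le_one (by omega)
    have hs := hS this
    set p := pc d with hpdef
    set C : ℝ := 80 * (c1 * (K + 3) + 1) / θ + 80 * c1 with hC
    -- lower bound for `p k`
    have hpk : C / 40 * d ≤ p * k := by
      have h1 := pc_ge hd4
      have h2 : (Real.sqrt 3 / 2) ^ d * (2 / Real.sqrt 3) ^ d = 1 := by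
        rw [← mul_pow]
        have ⟨hb1, _⟩ := sqrt3_bounds
        have : Real.sqrt 3 / 2 * (2 / Real.sqrt 3) = 1 := by
          field_simp
        rw [this, one_pow]
      have h3 : (d : ℝ) ^ (3 / 2 : ℝ) = d * Real.sqrt d := by
        rw [Real.sqrt_eq_rpow, show (3 / 2 : ℝ) = 1 + 1 / 2 by norm_num, Real.rpow_add hd0,
          Real.rpow_one]
      have hsd : 0 < Real.sqrt d := Real.sqrt_pos.2 hd0
      have hC0 : 0 < C := by rw [hC]; positivity
      calc C / 40 * d = (1 / 40 * (Real.sqrt 3 / 2) ^ d / Real.sqrt d) *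
            (C * (d : ℝ) ^ (3 / 2 : ℝ) * (2 / Real.sqrt 3) ^ d) := by
            rw [h3]
            have e : (1 / 40 * (Real.sqrt 3 / 2) ^ d / Real.sqrt d) *
              (C * (d * Real.sqrt d) * (2 / Real.sqrt 3) ^ d) = C / 40 * d *
              ((Real.sqrt 3 / 2) ^ d * (2 / Real.sqrt 3) ^ d) * (Real.sqrt d / Real.sqrt d) := by
              field_simp
            rw [e, h2, div_self hsd.ne']; ring
        _ ≤ p * k := mul_le_mul h1 hk (by positivity) hp.le
    set y : ℝ := p * k / d with hy
    have hyC : C / 40 ≤ y := by rw [hy, le_div_iff₀ hd0]; exact hpk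
    have hC0 : 0 < C := by rw [hC]; positivity
    have hy0 : 0 < y := lt_of_lt_of_le (by positivity) hyC
    have hkr : (k : ℝ) = y * d / p := by rw [hy]; field_simp
    have hk0 : (0 : ℝ) < k := by rw [hkr]; positivity
    have hk1 : 1 ≤ k := by exact_mod_cast hk0
    -- choice of q
    set q : ℕ := ⌈4 * g2 * Real.log 2 * d / p⌉₊ with hq
    have hqge : 4 * g2 * Real.log 2 * d / p ≤ q := Nat.le_ceil _
    have hqle : (q : ℝ) ≤ c1 * d / p := by
      have h1 : (q : ℝ) < 4 * g2 * Real.log 2 * d / p + 1 := Nat.ceil_lt_add_one (by positivity)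
      have h2 : (1 : ℝ) ≤ d / p := by rw [le_div_iff₀ hp]; linarith
      have h3 : 4 * g2 * Real.log 2 * d / p ≤ 4 * g2 * d / p := by
        apply div_le_div_of_nonneg_right _ hp.le
        have h4 : Real.log 2 ≤ 1 := by have := Real.log_two_lt_d9; linarith
        have h5 : 4 * g2 * Real.log 2 ≤ 4 * g2 := mul_le_of_le_one_right (by positivity) h4
        exact mul_le_mul_of_nonneg_right h5 hd0.le
      have h6 : c1 * d / p = 4 * g2 * d / p + d / p := by rw [hc1]; ring
      linarith
    set a : ℝ := (2 : ℝ) ^ (-(g2 * d)) with ha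
    have ha0 : 0 < a := Real.rpow_pos_of_pos (by norm_num) _
    have hla : Real.log a = -(g2 * d) * Real.log 2 := by rw [ha, Real.log_rpow (by norm_num)]
    have ha1 : a ≤ 1 := by
      rw [ha]; apply Real.rpow_le_one_of_one_le_of_nonpos (by norm_num)
      have : 0 ≤ g2 * d := by positivity
      linarith
    have hqa : (1 - p / 4) ^ q ≤ a := by
      have h1 : 1 - p / 4 ≤ Real.exp (-(p / 4)) := by
        have := Real.add_one_le_exp (-(p / 4)); linarith
      calc (1 - p / 4) ^ q ≤ Real.exp (-(p / 4)) ^ q := pow_le_pow_left₀ (by linarith) h1 q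
        _ = Real.exp (-(p * q / 4)) := by rw [← Real.exp_nat_mul]; congr 1; ring
        _ ≤ Real.exp (Real.log a) := by
            apply Real.exp_le_exp.2
            rw [hla]
            have h2 := mul_le_mul_of_nonneg_left hqge hp.le
            have h3 : p * (4 * g2 * Real.log 2 * d / p) = 4 * g2 * Real.log 2 * d := by
              field_simp
            rw [h3] at h2
            linarith
        _ = a := Real.exp_log ha0
    have hmain := indep_prob (μ := sig d) measurable_Rc hp hp1 ha0 ha1 hs hk1 hqa
    rw [← Kiss_eq] at hmain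
    refine hmain.trans ?_
    -- k ≥ q
    have hqk : q ≤ k := by
      have h1 : c1 * d / p ≤ k := by
        rw [hkr]
        apply div_le_div_of_nonneg_right _ hp.le
        apply mul_le_mul_of_nonneg_right _ hd0.le
        refine le_trans ?_ hyC
        rw [hC]
        have : 0 ≤ 80 * (c1 * (K + 3) + 1) / θ := by positivity
        linarith
      exact_mod_cast hqle.trans h1
    have hlhs : 0 < (k : ℝ) ^ q * a ^ (k - q) := by positivity
    have hrhs : 0 < (2 : ℝ) ^ (-(g * d * k)) := Real.rpow_pos_of_pos (by norm_num) _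
    rw [← Real.log_le_log_iff hlhs hrhs, Real.log_mul (by positivity) (by positivity),
      Real.log_pow, Real.log_pow, hla, Real.log_rpow (by norm_num), Nat.cast_sub hqk]
    -- bound for log k
    have hlogk : Real.log k ≤ η * y + (K - g2) + 3 * d := by
      have h1 : Real.log k = Real.log y + Real.log d - Real.log p := by
        rw [hkr, Real.log_div (by positivity) hp.ne', Real.log_mul hy0.ne' hd0.ne']
      have h2 := log_le_eta hη0 hy0
      have h3 : Real.log d ≤ d := (Real.log_le_sub_one_of_pos hd0).trans (by linarith)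
      have h4 : -Real.log p ≤ 4 + 2 * d := by
        have h5 := Real.log_le_log (by have := s32_pos; positivity) (pc_ge hd4)
        rw [Real.log_div (by have := s32_pos; positivity) (Real.sqrt_pos.2 hd0).ne',
          Real.log_mul (by norm_num) (by have := s32_pos; positivity), Real.log_pow,
          Real.log_sqrt hd0.le] at h5
        have h6 : -1 ≤ Real.log (Real.sqrt 3 / 2) := by
          rw [Real.le_log_iff_exp_le s32_pos]
          have h7 : Real.exp (-1) ≤ 1 / 2 := by
            rw [Real.exp_neg, one_div]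
            apply inv_anti₀ (by norm_num)
            have := Real.exp_one_gt_d9; linarith
          have ⟨hb1, _⟩ := sqrt3_bounds
          linarith
        have h8 : -4 ≤ Real.log (1 / 40) := by
          rw [Real.le_log_iff_exp_le (by norm_num), Real.exp_neg, one_div]
          apply inv_anti₀ (by norm_num)
          have h9 := Real.exp_one_gt_d9
          have h10 : (2.7 : ℝ) ^ 4 ≤ Real.exp 1 ^ 4 := pow_le_pow_left₀ (by norm_num) (by linarith) 4
          rw [← Real.exp_nat_mul] at h10
          norm_num at h10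
          linarith
        have h11 : (d : ℝ) * (-1) ≤ d * Real.log (Real.sqrt 3 / 2) :=
          mul_le_mul_of_nonneg_left h6 hd0.le
        linarith
      have h5 := le_abs_self (-1 - Real.log η)
      rw [h1, hK]
      linarith
    have h1 : (q : ℝ) * (Real.log k + g2 * d * Real.log 2) ≤ θ * d * k := by
      have hK2 : Real.log k + g2 * d * Real.log 2 ≤ η * y + (K + 3) * d := by
        have h2 : g2 * d * Real.log 2 ≤ g2 * d := by
          have h4 : Real.log 2 ≤ 1 := by have := Real.log_two_lt_d9; linarith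
          exact mul_le_of_le_one_right (by positivity) h4
        have h3 : K - g2 ≤ (K - g2) * d := by
          have : 0 ≤ K - g2 := by rw [hK]; have := abs_nonneg (-1 - Real.log η); linarith
          exact le_mul_of_one_le_right this (by linarith)
        nlinarith
      have hnn : 0 ≤ η * y + (K + 3) * d := by positivity
      calc (q : ℝ) * (Real.log k + g2 * d * Real.log 2)
          ≤ q * (η * y + (K + 3) * d) := mul_le_mul_of_nonneg_left hK2 (Nat.cast_nonneg q)
        _ ≤ c1 * d / p * (η * y + (K + 3) * d) := mul_le_mul_of_nonneg_right hqle hnn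
        _ = (c1 * η * y + c1 * (K + 3) * d) * (d / p) := by ring
        _ ≤ (θ * y * d) * (d / p) := by
            apply mul_le_mul_of_nonneg_right _ (by positivity)
            have h2 : c1 * η = θ / 2 := by rw [hη]; field_simp
            have h3 : θ / 2 * y ≤ θ / 2 * y * d := le_mul_of_one_le_right (by positivity) (by linarith)
            have h4 : c1 * (K + 3) ≤ θ / 2 * y := by
              have h5 : 2 * (c1 * (K + 3)) / θ ≤ y := by
                refine le_trans ?_ hyC
                rw [hC]
                have h6 : (80 * (c1 * (K + 3) + 1) / θ + 80 * c1) / 40 =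
                  2 * (c1 * (K + 3)) / θ + 2 / θ + 2 * c1 := by ring
                rw [h6]
                have : 0 ≤ 2 / θ := by positivity
                linarith
              rw [div_le_iff₀ hθ0] at h5
              linarith
            rw [h2]
            nlinarith
        _ = θ * d * k := by rw [hkr]; ring
    have h2 : g * d * k * Real.log 2 ≤ g1 * d * k * Real.log 2 := by
      apply mul_le_mul_of_nonneg_right _ hl2.le
      apply mul_le_mul_of_nonneg_right _ hk0.le
      exact mul_le_mul_of_nonneg_right (le_max_left _ _) hd0.le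
    have h3 : θ * d * k = g2 * d * k * Real.log 2 - g1 * d * k * Real.log 2 := by rw [hθ]; ring
    nlinarith

end Pool.Agent.Helper49.EJ
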