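import Pool.Agent.Helper49.EJ.Main

/-!
Numerical value of the threshold.
-/

set_option autoImplicit false

namespace Pool.Agent.Helper49.EJ

lemma log_three_le : Real.log 3 ≤ 1.098613 := by
  have h := Real.abs_log_sub_add_sum_range_le (x := (1 / 4 : ℝ)) (by norm_num [abs_of_pos]) 10
  have h1 := (abs_le.1 h).2
  have e : (1 : ℝ) - 1 / 4 = 3 / 4 := by norm_num
  rw [e, Real.log_div (by norm_num) (by norm_num),
    show Real.log 4 = 2 * Real.log 2 by
      rw [show (4 : ℝ) = 2 ^ 2 by norm_num, Real.log_pow]; norm_num] at h1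
  have h2 := Real.log_two_lt_d9
  norm_num [Finset.sum_range_succ, abs_of_pos] at h1
  linarith

lemma log_two_sqrt_ge : 1.31695 ≤ Real.log (2 + Real.sqrt 3) := by
  have hs : (1.73205 : ℝ) ≤ Real.sqrt 3 := by
    apply Real.le_sqrt_of_sq_le; norm_num
  have h0 : Real.log 3.73205 ≤ Real.log (2 + Real.sqrt 3) :=
    Real.log_le_log (by norm_num) (by linarith)
  have h := Real.abs_log_sub_add_sum_range_le (x := (0.0669875 : ℝ)) (by norm_num [abs_of_pos]) 5
  have h1 := (abs_le.1 h).1
  have e : (1 : ℝ) - 0.0669875 = 3.73205 / 4 := by norm_num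
  rw [e, Real.log_div (by norm_num) (by norm_num),
    show Real.log 4 = 2 * Real.log 2 by
      rw [show (4 : ℝ) = 2 ^ 2 by norm_num, Real.log_pow]; norm_num] at h1
  have h2 := Real.log_two_gt_d9
  norm_num [Finset.sum_range_succ, abs_of_pos] at h1
  linarith

/-- the threshold is larger than `0.3044` -/
theorem threshold_gt : (0.3044 : ℝ) < Real.logb 2 (2 + Real.sqrt 3) / Real.sqrt 3 -
    Real.logb 2 3 / 2 := by
  have hs1 : Real.sqrt 3 < 1.7320509 := by
    rw [Real.sqrt_lt' (by norm_num)]; norm_num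
  have hs0 : 0 < Real.sqrt 3 := Real.sqrt_pos.2 (by norm_num)
  have hL := log_two_sqrt_ge
  have h3 := log_three_le
  have h2a := Real.log_two_lt_d9
  have h2b := Real.log_two_gt_d9
  have hl2 : 0 < Real.log 2 := by linarith
  unfold Real.logb
  have h1 : 1.31695 / 1.7320509 ≤ Real.log (2 + Real.sqrt 3) / Real.sqrt 3 :=
    div_le_div₀ (by linarith) hL hs0 hs1.le
  have e : Real.log (2 + Real.sqrt 3) / Real.log 2 / Real.sqrt 3 - Real.log 3 / Real.log 2 / 2 =
      (Real.log (2 + Real.sqrt 3) / Real.sqrt 3 - Real.log 3 / 2) / Real.log 2 := by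
    field_simp
  rw [e, lt_div_iff₀ hl2]
  norm_num at h1
  linarith

lemma threshold_eq : Real.logb 2 (2 / Real.sqrt 3) + gst =
    Real.logb 2 (2 + Real.sqrt 3) / Real.sqrt 3 - Real.logb 2 3 / 2 := by
  have hs0 : 0 < Real.sqrt 3 := Real.sqrt_pos.2 (by norm_num)
  unfold gst
  rw [Real.logb_div (by norm_num) hs0.ne', Real.logb_self_eq_one (by norm_num),
    Real.sqrt_eq_rpow, Real.logb_rpow_eq_mul_logb_of_pos (by norm_num)]
  ring

end Pool.Agent.Helper49.EJ
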