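import Pool.Agent.Helper49.EJ.Asm

/-!
The upper bound for the number of balls that can be selected from random candidates.
-/

set_option autoImplicit false

open MeasureTheory

namespace Pool.Agent.Helper49.EJ

open Pool.Agent.Helper47.KP

lemma measurePreserving_comp {X : Type*} [MeasurableSpace X] (μ : Measure X)
    [IsProbabilityMeasure μ] {k n : ℕ} (f : Fin k → Fin n) (hf : Function.Injective f) :
    MeasurePreserving (fun x : Fin n → X => x ∘ f) (Measure.pi fun _ : Fin n => μ)
      (Measure.pi fun _ : Fin k => μ) := by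
  classical
  have hm : Measurable (fun x : Fin n → X => x ∘ f) :=
    measurable_pi_lambda _ fun j => measurable_pi_apply (f j)
  refine ⟨hm, ?_⟩
  symm
  apply Measure.pi_eq
  intro s hs
  rw [Measure.map_apply hm (MeasurableSet.univ_pi hs)]
  set t : Fin n → Set X := fun i => if h : ∃ j, f j = i then s h.choose else Set.univ with ht
  have htf : ∀ j, t (f j) = s j := by
    intro j
    have h : ∃ j', f j' = f j := ⟨j, rfl⟩
    simp only [ht, dif_pos h]
    rw [hf h.choose_spec]
  have e : (fun x : Fin n → X => x ∘ f) ⁻¹' Set.univ.pi s = Set.univ.pi t := by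
    ext x
    simp only [Set.mem_preimage, Set.mem_univ_pi, Function.comp_apply]
    constructor
    · intro h i
      by_cases hi : ∃ j, f j = i
      · obtain ⟨j, rfl⟩ := hi
        rw [htf]; exact h j
      · simp only [ht, dif_neg hi]; trivial
    · intro h j
      have := h (f j)
      rwa [htf] at this
  rw [e, Measure.pi_pi]
  have h1 : ∏ i, μ (t i) = ∏ i ∈ Finset.univ.image f, μ (t i) := by
    symm
    apply Finset.prod_subset (Finset.subset_univ _)
    intro i _ hi
    have hne : ¬ ∃ j, f j = i := by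
      rintro ⟨j, rfl⟩
      exact hi (Finset.mem_image_of_mem f (Finset.mem_univ j))
    simp only [ht, dif_neg hne, measure_univ]
  rw [h1, Finset.prod_image fun a _ b _ h => hf h]
  exact Finset.prod_congr rfl fun j _ => by rw [htf]

variable {d : ℕ}

lemma measurableSet_Kiss (d k : ℕ) : MeasurableSet (Kiss d k) := by
  have : Kiss d k = ⋂ i : Fin k, ⋂ j : Fin k, {x : Fin k → Sph d | i ≠ j →
      inner ℝ (x i : EE d) (x j) ≤ 1 / 2} := by
    ext x; simp [Kiss]
  rw [this]
  refine MeasurableSet.iInter fun i => MeasurableSet.iInter fun j => ?_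
  by_cases hij : i = j
  · subst hij
    simp
  · have e : {x : Fin k → Sph d | i ≠ j → inner ℝ (x i : EE d) (x j) ≤ 1 / 2} =
        {x : Fin k → Sph d | inner ℝ (x i : EE d) (x j) ≤ 1 / 2} := by
      ext x; simp [hij]
    rw [e]
    have hc : Continuous (fun x : Fin k → Sph d => inner ℝ (x i : EE d) (x j)) :=
      (continuous_subtype_val.comp (continuous_apply i)).inner
        (continuous_subtype_val.comp (continuous_apply j))
    exact (isClosed_Iic.preimage hc).measurableSet

/-- union bound -/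
lemma union_bound [NeZero d] {n k : ℕ} :
    (Measure.pi fun _ : Fin n => sig d).real {x | ∃ I, Kis x I ∧ k ≤ I.card} ≤
      (n.choose k : ℝ) * (Measure.pi fun _ : Fin k => sig d).real (Kiss d k) := by
  classical
  set μ := Measure.pi fun _ : Fin n => sig d
  have hsub : {x : Fin n → Sph d | ∃ I, Kis x I ∧ k ≤ I.card} ⊆
      ⋃ I ∈ Finset.powersetCard k (Finset.univ : Finset (Fin n)), {x | Kis x I} := by
    rintro x ⟨I, hI, hk⟩
    obtain ⟨J, hJ, hJk⟩ := Finset.exists_subset_card_eq hk
    simp only [Set.mem_iUnion, Finset.mem_powersetCard]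
    exact ⟨J, ⟨Finset.subset_univ J, hJk⟩, fun i hi j hj => hI i (hJ hi) j (hJ hj)⟩
  have h1 : ∀ I ∈ Finset.powersetCard k (Finset.univ : Finset (Fin n)),
      μ.real {x | Kis x I} ≤ (Measure.pi fun _ : Fin k => sig d).real (Kiss d k) := by
    intro I hI
    rw [Finset.mem_powersetCard] at hI
    set f : Fin k → Fin n := fun i => I.orderEmbOfFin hI.2 i with hf
    have hfi : Function.Injective f := (I.orderEmbOfFin hI.2).injective
    have hmp := measurePreserving_comp (sig d) f hfi
    have hs : {x : Fin n → Sph d | Kis x I} ⊆ (fun x : Fin n → Sph d => x ∘ f) ⁻¹' Kiss d k := by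
      intro x hx i j hij
      exact hx (f i) (I.orderEmbOfFin_mem hI.2 i) (f j) (I.orderEmbOfFin_mem hI.2 j)
        fun h => hij (hfi h)
    refine (measureReal_mono hs (measure_ne_top _ _)).trans (le_of_eq ?_)
    rw [measureReal_def, measureReal_def,
      hmp.measure_preimage (measurableSet_Kiss d k).nullMeasurableSet]
  calc μ.real {x | ∃ I, Kis x I ∧ k ≤ I.card}
      ≤ μ.real (⋃ I ∈ Finset.powersetCard k (Finset.univ : Finset (Fin n)), {x | Kis x I}) :=
        measureReal_mono hsub (measure_ne_top _ _)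
    _ ≤ ∑ I ∈ Finset.powersetCard k (Finset.univ : Finset (Fin n)), μ.real {x | Kis x I} :=
        measureReal_biUnion_finset_le _ _
    _ ≤ ∑ _I ∈ Finset.powersetCard k (Finset.univ : Finset (Fin n)),
        (Measure.pi fun _ : Fin k => sig d).real (Kiss d k) := Finset.sum_le_sum h1
    _ = (n.choose k : ℝ) * (Measure.pi fun _ : Fin k => sig d).real (Kiss d k) := by
        rw [Finset.sum_const, Finset.card_powersetCard, Finset.card_univ, Fintype.card_fin,
          nsmul_eq_mul]

theorem upper {s : ℝ} (hs : s < Real.logb 2 (2 / Real.sqrt 3) + gst) : ∃ C : ℝ, 0 < C ∧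
    ∃ d₀ : ℕ, ∀ d : ℕ, d₀ ≤ d → ∀ n : ℕ, (n : ℝ) ≤ 2 ^ (s * d) →
    (Measure.pi fun _ : Fin n => sig d).real {x | ∃ I, Kis x I ∧ C * ord d ≤ (I.card : ℝ)} ≤
      2 ^ (-(d : ℝ)) := by
  set W : ℝ := Real.logb 2 (2 / Real.sqrt 3) with hW
  have hl2 : 0 < Real.log 2 := Real.log_pos (by norm_num)
  set g : ℝ := (s - W + gst) / 2 with hg
  have hgl : g < gst := by rw [hg]; linarith
  have hgs : s - W < g := by rw [hg]; linarith
  set η : ℝ := (g - (s - W)) * Real.log 2 with hη
  have hη0 : 0 < η := mul_pos (by linarith) hl2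
  obtain ⟨C0, hC0, d1, hmain⟩ := main_bound hgl
  set C : ℝ := max C0 1 with hC
  have hC1 : 1 ≤ C := le_max_right _ _
  refine ⟨C, by linarith, max d1 (max 1 (⌈2 / η⌉₊ + ⌈2 * Real.log 2 / η⌉₊)),
    fun d hd n hn => ?_⟩
  have hd1 : d1 ≤ d := (le_max_left _ _).trans hd
  have hd2 : 1 ≤ d := (le_max_left _ _).trans ((le_max_right _ _).trans hd)
  have hd3 : ⌈2 / η⌉₊ + ⌈2 * Real.log 2 / η⌉₊ ≤ d :=
    (le_max_right _ _).trans ((le_max_right _ _).trans hd)
  have : NeZero d := ⟨by omega⟩
  have hd' : (1 : ℝ) ≤ d := by exact_mod_cast hd2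
  have hd0 : (0 : ℝ) < d := by linarith
  have hηd : 2 ≤ η * d := by
    have h1 : 2 / η ≤ d := (Nat.le_ceil _).trans (by exact_mod_cast (by omega : ⌈2 / η⌉₊ ≤ d))
    rw [div_le_iff₀ hη0] at h1
    linarith
  have hs30 : 0 < Real.sqrt 3 := Real.sqrt_pos.2 (by norm_num)
  have hs32 : 1 ≤ 2 / Real.sqrt 3 := by
    rw [le_div_iff₀ hs30]
    have := sqrt3_bounds.2
    linarith
  have hpow1 : (1 : ℝ) ≤ (2 / Real.sqrt 3) ^ d := one_le_pow₀ hs32
  have hd32 : (1 : ℝ) ≤ (d : ℝ) ^ (3 / 2 : ℝ) := Real.one_le_rpow hd' (by norm_num)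
  set F := ord d with hF
  have hFW : (2 : ℝ) ^ (W * d) ≤ F := by
    have e : (2 : ℝ) ^ (W * d) = (2 / Real.sqrt 3) ^ d := by
      rw [Real.rpow_mul (by norm_num), hW, Real.rpow_logb (by norm_num) (by norm_num)
        (by positivity), Real.rpow_natCast]
    rw [e, hF]
    unfold ord
    exact le_mul_of_one_le_left (by positivity) hd32
  have hF1 : 1 ≤ F := by
    rw [hF]; unfold ord
    exact one_le_mul_of_one_le_of_one_le hd32 hpow1
  have hFd : (d : ℝ) ≤ F := by
    rw [hF]; unfold ord
    have h1 : (d : ℝ) ≤ (d : ℝ) ^ (3 / 2 : ℝ) := by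
      conv_lhs => rw [← Real.rpow_one (d : ℝ)]
      exact Real.rpow_le_rpow_of_exponent_le hd' (by norm_num)
    exact h1.trans (le_mul_of_one_le_right (by positivity) hpow1)
  set k : ℕ := ⌈C * F⌉₊ with hk
  have hkge : C * F ≤ k := Nat.le_ceil _
  have hFk : F ≤ k := by nlinarith
  have hk0 : (0 : ℝ) < k := by linarith
  have hsub : {x : Fin n → Sph d | ∃ I, Kis x I ∧ C * F ≤ (I.card : ℝ)} ⊆
      {x | ∃ I, Kis x I ∧ k ≤ I.card} := by
    rintro x ⟨I, hI, h⟩
    exact ⟨I, hI, Nat.ceil_le.2 h⟩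
  refine (measureReal_mono hsub (measure_ne_top _ _)).trans (union_bound.trans ?_)
  have hP := hmain d hd1 k (by
    refine le_trans ?_ hkge
    rw [hF]; unfold ord
    have h1 : C0 * ((d : ℝ) ^ (3 / 2 : ℝ) * (2 / Real.sqrt 3) ^ d) ≤
        C * ((d : ℝ) ^ (3 / 2 : ℝ) * (2 / Real.sqrt 3) ^ d) :=
      mul_le_mul_of_nonneg_right (le_max_left _ _) (by positivity)
    linarith)
  have hchoose : (n.choose k : ℝ) ≤ (Real.exp 1 * 2 ^ ((s - W) * d)) ^ k := by
    have h1 : (n.choose k : ℝ) ≤ (n : ℝ) ^ k / (k.factorial : ℝ) := Nat.choose_le_pow_div k n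
    have h2 : (k : ℝ) ^ k / (k.factorial : ℝ) ≤ Real.exp k :=
      Real.pow_div_factorial_le_exp (x := (k : ℝ)) hk0.le k
    have h3 : (n : ℝ) / k ≤ 2 ^ ((s - W) * d) := by
      rw [div_le_iff₀ hk0]
      calc (n : ℝ) ≤ 2 ^ (s * d) := hn
        _ = 2 ^ ((s - W) * d) * 2 ^ (W * d) := by
            rw [← Real.rpow_add (by norm_num)]; congr 1; ring
        _ ≤ 2 ^ ((s - W) * d) * k :=
            mul_le_mul_of_nonneg_left (hFW.trans hFk) (Real.rpow_pos_of_pos (by norm_num) _).le
    calc (n.choose k : ℝ) ≤ (n : ℝ) ^ k / (k.factorial : ℝ) := h1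
      _ = ((k : ℝ) ^ k / (k.factorial : ℝ)) * ((n : ℝ) / k) ^ k := by
          rw [div_pow]; field_simp
      _ ≤ Real.exp k * (2 ^ ((s - W) * d)) ^ k :=
          mul_le_mul h2 (pow_le_pow_left₀ (by positivity) h3 k) (by positivity)
            (Real.exp_pos _).le
      _ = (Real.exp 1 * 2 ^ ((s - W) * d)) ^ k := by
          rw [mul_pow, ← Real.exp_nat_mul, mul_one]
  have hpos : (0 : ℝ) < Real.exp 1 * 2 ^ ((s - W) * d) := by positivity
  calc (n.choose k : ℝ) * (Measure.pi fun _ : Fin k => sig d).real (Kiss d k)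
      ≤ (Real.exp 1 * 2 ^ ((s - W) * d)) ^ k * 2 ^ (-(g * d * k)) :=
        mul_le_mul hchoose hP measureReal_nonneg (by positivity)
    _ ≤ 2 ^ (-(d : ℝ)) := by
        rw [← Real.log_le_log_iff (by positivity) (by positivity),
          Real.log_mul (by positivity) (by positivity), Real.log_pow,
          Real.log_mul (by positivity) (by positivity), Real.log_exp, Real.log_rpow (by norm_num),
          Real.log_rpow (by norm_num), Real.log_rpow (by norm_num)]
        have e : (k : ℝ) * (1 + (s - W) * d * Real.log 2) + -(g * d * k) * Real.log 2 =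
            k * (1 - η * d) := by rw [hη]; ring
        rw [e]
        have h1 : (k : ℝ) * (1 - η * d) ≤ k * (-(η * d / 2)) := by
          apply mul_le_mul_of_nonneg_left _ hk0.le
          linarith
        have h2 : (k : ℝ) * (-(η * d / 2)) ≤ k * (-1) :=
          mul_le_mul_of_nonneg_left (by linarith) hk0.le
        have h3 : -(k : ℝ) ≤ -d := by linarith
        have h4 : Real.log 2 ≤ 1 := by have := Real.log_two_lt_d9; linarith
        nlinarith

end Pool.Agent.Helper49.EJ
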